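import Mathlib

/-!
Martin's axiom for `ℵ₁` dense sets.
-/

namespace Pool.Agent.W_MP_6cb7ce_lc_h1

/-- Elements `p` and `q` of a preorder are compatible if they have a common lower bound. -/
def Compat {P : Type} [Preorder P] (p q : P) : Prop := ∃ r, r ≤ p ∧ r ≤ q

/-- The countable chain condition: every set of pairwise incompatible elements is countable. -/
def IsCCC (P : Type) [Preorder P] : Prop :=
  ∀ A : Set P, (∀ p ∈ A, ∀ q ∈ A, p ≠ q → ¬ Compat p q) → A.Countable

/-- A set is dense if every element has an extension (a smaller element) in it. -/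
def IsDns {P : Type} [Preorder P] (D : Set P) : Prop := ∀ p, ∃ q ∈ D, q ≤ p

/-- Filters: nonempty, upward closed and downward directed sets. -/
structure IsFlt {P : Type} [Preorder P] (G : Set P) : Prop where
  nonempty : G.Nonempty
  upward : ∀ p ∈ G, ∀ q, p ≤ q → q ∈ G
  directed : ∀ p ∈ G, ∀ q ∈ G, ∃ r ∈ G, r ≤ p ∧ r ≤ q

/-- Martin's axiom for `ℵ₁` dense sets (`MA_{ℵ₁}`): for every nonempty preorder with the
countable chain condition and every family of at most `ℵ₁` dense subsets there is a filter which
meets all of them. -/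
def MartinsAxiomAlephOne : Prop :=
  ∀ (P : Type) [Preorder P] [Nonempty P], IsCCC P →
    ∀ (I : Type) (D : I → Set P), Cardinal.mk I ≤ Cardinal.aleph 1 → (∀ i, IsDns (D i)) →
      ∃ G : Set P, IsFlt G ∧ ∀ i, (G ∩ D i).Nonempty

end Pool.Agent.W_MP_6cb7ce_lc_h1
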