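import Pool.Agent.W_MP_6cb7ce_lc_h1.Tree

/-!
Big nodes with respect to a decreasing family of sets, and a club of good levels.
-/

set_option linter.unusedSectionVars false

namespace Pool.Agent.W_MP_6cb7ce_lc_h1

section

variable {W : Type} [LinearOrder W] [Om W] {c : Coh W}

/-- A decreasing family of nonempty sets of elements of `L` of large height. -/
structure Fam (c : Coh W) where
  X : W → Set (F W)
  anti : ∀ a b, a ≤ b → X b ⊆ X a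
  ne : ∀ a, (X a).Nonempty
  ht : ∀ a, ∀ x ∈ X a, ∃ δ, a ≤ δ ∧ x ∈ U c δ

variable (𝒳 : Fam c)

/-- Big nodes: they have extensions in every set of the family. -/
def B (δ : W) : Set (F W) := {u | u ∈ U c δ ∧ ∀ ξ, ∃ x ∈ 𝒳.X ξ, res δ x = u}

variable {𝒳}

theorem res_mem_B {γ δ : W} {u : F W} (hu : u ∈ B 𝒳 δ) (h : γ ≤ δ) : res γ u ∈ B 𝒳 γ := by
  refine ⟨res_mem_U hu.1 h, fun ξ => ?_⟩
  obtain ⟨x, hx, h1⟩ := hu.2 ξ
  refine ⟨x, hx, ?_⟩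
  rw [← h1, res_res h]

theorem exists_ext_B {γ δ : W} {u : F W} (hu : u ∈ B 𝒳 γ) (h : γ ≤ δ) :
    ∃ v ∈ B 𝒳 δ, res γ v = u := by
  obtain ⟨v, hv, hR⟩ := pigeon_rel (S := T c δ) (T_cnt c δ)
    (fun ξ v => v ∈ U c δ ∧ res γ v = u ∧ ∃ x ∈ 𝒳.X ξ, res δ x = v) (by
      rintro a b y hab ⟨h1, h2, x, hx, h3⟩
      exact ⟨h1, h2, x, 𝒳.anti a b hab hx, h3⟩) (by
      intro ξ
      obtain ⟨x, hx, h1⟩ := hu.2 (max ξ δ)
      obtain ⟨δ', hδ', hxU⟩ := 𝒳.ht _ x hx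
      have h2 : res δ x ∈ U c δ := res_mem_U hxU ((le_max_right _ _).trans hδ')
      exact ⟨res δ x, h2.1, h2, by rw [res_res h, h1],
        x, 𝒳.anti _ _ (le_max_left _ _) hx, rfl⟩)
  exact ⟨v, ⟨(hR δ).1, fun ξ => (hR ξ).2.2⟩, (hR δ).2.1⟩

theorem B_bt : (B 𝒳 bt).Nonempty := by
  refine ⟨0, ⟨⟨fun ξ => le_rfl, fun ξ _ => rfl, ?_⟩, fun ξ hξ => absurd hξ (not_lt_bt ξ)⟩,
    fun ξ => ?_⟩
  · refine Set.Finite.subset Set.finite_empty ?_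
    rintro ξ ⟨h, -⟩
    exact absurd h (not_lt_bt ξ)
  · obtain ⟨x, hx⟩ := 𝒳.ne ξ
    refine ⟨x, hx, F_ext fun η => ?_⟩
    rw [res_ge (bt_le η)]
    rfl

/-- The set of big extensions of `u` at level `δ` has no `r`-maximal element. -/
def NoMx (𝒳 : Fam c) (r : F W → F W → Prop) (γ δ : W) (u : F W) : Prop :=
  ∀ v ∈ B 𝒳 δ, res γ v = u → ∃ v' ∈ B 𝒳 δ, res γ v' = u ∧ r v v'

theorem noMx_mono {r : F W → F W → Prop} (hr2 : ∀ γ a b, r (res γ a) (res γ b) → r a b)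
    {γ δ δ' : W} {u : F W} (h : γ ≤ δ) (h' : δ ≤ δ') (ho : NoMx 𝒳 r γ δ u) :
    NoMx 𝒳 r γ δ' u := by
  intro v hv hvu
  obtain ⟨w, hw, hwu, hr⟩ := ho (res δ v) (res_mem_B hv h') (by rw [res_res h, hvu])
  obtain ⟨w', hw', hww⟩ := exists_ext_B hw h'
  refine ⟨w', hw', ?_, hr2 δ v w' ?_⟩
  · rw [← res_res h, hww, hwu]
  · rw [hww]
    exact hr

theorem exists_noMx {r : F W → F W → Prop} (hr1 : ∀ a b, ¬ r a b → a = b ∨ r b a)
    (hr2 : ∀ γ a b, r (res γ a) (res γ b) → r a b) {γ : W} {u : F W} (hu : u ∈ B 𝒳 γ) :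
    ∃ δ, γ ≤ δ ∧ NoMx 𝒳 r γ δ u := by
  by_contra hc
  have hc' : ∀ δ, γ ≤ δ → ∃ m, m ∈ B 𝒳 δ ∧ res γ m = u ∧
      ∀ v' ∈ B 𝒳 δ, res γ v' = u → ¬ r m v' := by
    intro δ hδ
    by_contra h
    apply hc
    refine ⟨δ, hδ, fun v hv hvu => ?_⟩
    by_contra h2
    exact h ⟨v, hv, hvu, fun v' hv' hvu' hr => h2 ⟨v', hv', hvu', hr⟩⟩
  choose! m hm1 hm2 hm3 using hc'
  have key : ∀ δ δ', γ ≤ δ → δ ≤ δ' → res δ (m δ') = m δ := by
    intro δ δ' h h'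
    have h1 := hm3 δ h (res δ (m δ')) (res_mem_B (hm1 δ' (h.trans h')) h')
      (by rw [res_res h, hm2 δ' (h.trans h')])
    rcases hr1 _ _ h1 with h2 | h2
    · exact h2.symm
    · obtain ⟨w, hw, hwm⟩ := exists_ext_B (hm1 δ h) h'
      refine absurd (hr2 δ (m δ') w (by rw [hwm]; exact h2)) (hm3 δ' (h.trans h') w hw ?_)
      rw [← res_res h, hwm, hm2 δ h]
  refine no_branch' (c := c) (fun δ => res δ (m (max δ γ))) (fun δ => ?_) (fun δ δ' h => ?_)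
  · exact (res_mem_B (hm1 _ (le_max_right _ _)) (le_max_left _ _)).1.1
  · have h1 := key (max δ γ) (max δ' γ) (le_max_right _ _) (max_le_max_right γ h)
    change res δ (res δ' (m (max δ' γ))) = res δ (m (max δ γ))
    rw [res_res h, ← h1, res_res (le_max_left _ _)]

/-- There are club many levels closed under a given function. -/
theorem exists_club (f : W → W) : ∃ D : Set W, bt ∈ D ∧
    (∀ x, ∃ m ∈ D, m ≤ x ∧ ∀ γ ∈ D, γ ≤ x → γ ≤ m) ∧ (∀ x, ∃ δ ∈ D, x < δ) ∧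
    ∀ δ ∈ D, ∀ γ, γ < δ → f γ ≤ δ ∧ sc γ < δ := by
  refine ⟨{δ | ∀ γ, γ < δ → f γ ≤ δ ∧ sc γ < δ}, fun γ hγ => absurd hγ (not_lt_bt γ),
    fun x => ?_, fun x => ?_, fun δ hδ => hδ⟩
  · -- closedness
    let A : Set W := {y | ∀ γ, (∀ γ', γ' < γ → f γ' ≤ γ ∧ sc γ' < γ) → γ ≤ x → γ ≤ y}
    have hA : A.Nonempty := ⟨x, fun γ _ h => h⟩
    have hm := wellFounded_lt.min_mem A hA
    refine ⟨wellFounded_lt.min A hA, fun γ hγ => ?_, ?_, fun γ hγ hx => hm γ hγ hx⟩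
    · have h1 : γ ∉ A := fun h => wellFounded_lt.not_lt_min A h hγ
      simp only [A, Set.mem_setOf_eq, not_forall, not_le] at h1
      obtain ⟨δ, hδ, hδx, hγδ⟩ := h1
      have h2 := hm δ hδ hδx
      obtain ⟨h3, h4⟩ := hδ γ hγδ
      exact ⟨h3.trans h2, h4.trans_le h2⟩
    · exact not_lt.mp fun h => wellFounded_lt.not_lt_min A (x := x) (fun γ _ h => h) h
  · -- unboundedness
    have hstep : ∀ y : W, ∃ y', y < y' ∧ ∀ γ, γ ≤ y → f γ < y' ∧ sc γ < y' := by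
      intro y
      have hcnt : ((f '' Set.Iic y) ∪ (sc '' Set.Iic y)).Countable :=
        ((Iic_countable y).image f).union ((Iic_countable y).image sc)
      obtain ⟨b, hb⟩ := exists_ub_of_countable hcnt
      refine ⟨max b (sc y), (lt_sc y).trans_le (le_max_right _ _), fun γ hγ => ⟨?_, ?_⟩⟩
      · exact (hb _ (Or.inl ⟨γ, hγ, rfl⟩)).trans_le (le_max_left _ _)
      · exact (hb _ (Or.inr ⟨γ, hγ, rfl⟩)).trans_le (le_max_left _ _)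
    choose g hg1 hg2 using hstep
    let s : ℕ → W := fun n => g^[n] x
    have hs : ∀ n, s (n + 1) = g (s n) := fun n => Function.iterate_succ_apply' g n x
    let A : Set W := {y | ∀ n, s n < y}
    have hA : A.Nonempty := by
      obtain ⟨b, hb⟩ := exists_ub_range s
      exact ⟨b, hb⟩
    have hm : ∀ n, s n < wellFounded_lt.min A hA := wellFounded_lt.min_mem A hA
    refine ⟨wellFounded_lt.min A hA, fun γ hγ => ?_, hm 0⟩
    have h1 : γ ∉ A := fun h => wellFounded_lt.not_lt_min A h hγ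
    simp only [A, Set.mem_setOf_eq, not_forall, not_lt] at h1
    obtain ⟨n, hn⟩ := h1
    obtain ⟨h3, h4⟩ := hg2 (s n) γ hn
    rw [← hs] at h3 h4
    exact ⟨(h3.trans (hm _)).le, h4.trans (hm _)⟩

/-- The club of good levels. -/
theorem exists_good_club (𝒳 : Fam c) : ∃ D : Set W, bt ∈ D ∧
    (∀ x, ∃ m ∈ D, m ≤ x ∧ ∀ γ ∈ D, γ ≤ x → γ ≤ m) ∧ (∀ x, ∃ δ ∈ D, x < δ) ∧
    ∀ δ ∈ D, ∀ γ, γ < δ → sc γ < δ ∧ ∀ u ∈ B 𝒳 γ,
      NoMx 𝒳 (· < ·) γ δ u ∧ NoMx 𝒳 (· > ·) γ δ u := by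
  have hr1 : ∀ a b : F W, ¬ a < b → a = b ∨ b < a := fun a b h =>
    (not_lt.mp h).eq_or_lt.imp Eq.symm id
  have hr2 : ∀ (γ : W) (a b : F W), res γ a < res γ b → a < b := fun γ a b h => lt_of_res_lt h
  have hr1' : ∀ a b : F W, ¬ a > b → a = b ∨ b > a := fun a b h =>
    (not_lt.mp h).eq_or_lt
  have hr2' : ∀ (γ : W) (a b : F W), res γ a > res γ b → a > b := fun γ a b h => lt_of_res_lt h
  have hex : ∀ γ : W, ∃ δ, γ ≤ δ ∧ ∀ u ∈ B 𝒳 γ,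
      NoMx 𝒳 (· < ·) γ δ u ∧ NoMx 𝒳 (· > ·) γ δ u := by
    intro γ
    have hB : (B 𝒳 γ).Countable := (T_cnt c γ).mono fun u hu => hu.1.1
    have h1 : ∀ u ∈ B 𝒳 γ, ∃ δ, γ ≤ δ ∧ NoMx 𝒳 (· < ·) γ δ u := fun u hu =>
      exists_noMx hr1 hr2 hu
    have h2 : ∀ u ∈ B 𝒳 γ, ∃ δ, γ ≤ δ ∧ NoMx 𝒳 (· > ·) γ δ u := fun u hu =>
      exists_noMx hr1' hr2' hu
    choose! f hf1 hf2 using h1
    choose! g hg1 hg2 using h2
    obtain ⟨b, hb⟩ := exists_ub_of_countable ((hB.image f).union (hB.image g))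
    refine ⟨max γ b, le_max_left _ _, fun u hu => ⟨?_, ?_⟩⟩
    · exact noMx_mono hr2 (hf1 u hu)
        ((hb _ (Or.inl ⟨u, hu, rfl⟩)).le.trans (le_max_right _ _)) (hf2 u hu)
    · exact noMx_mono hr2' (hg1 u hu)
        ((hb _ (Or.inr ⟨u, hu, rfl⟩)).le.trans (le_max_right _ _)) (hg2 u hu)
  choose f hf1 hf2 using hex
  obtain ⟨D, h1, h2, h3, h4⟩ := exists_club f
  refine ⟨D, h1, h2, h3, fun δ hδ γ hγ => ⟨(h4 δ hδ γ hγ).2, fun u hu => ⟨?_, ?_⟩⟩⟩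
  · exact noMx_mono hr2 (hf1 γ) (h4 δ hδ γ hγ).1 (hf2 γ u hu).1
  · exact noMx_mono hr2' (hf1 γ) (h4 δ hδ γ hγ).1 (hf2 γ u hu).2

/-- The set of big extensions at a good level is densely ordered. -/
theorem big_dense {D : Set W} (hD : ∀ δ ∈ D, ∀ γ, γ < δ → sc γ < δ ∧ ∀ u ∈ B 𝒳 γ,
      NoMx 𝒳 (· < ·) γ δ u ∧ NoMx 𝒳 (· > ·) γ δ u) {γ δ : W} (hδ : δ ∈ D) {u v v' : F W}
    (hv : v ∈ B 𝒳 δ) (hvu : res γ v = u) (hv' : v' ∈ B 𝒳 δ) (hvu' : res γ v' = u) (hlt : v < v') :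
    ∃ w ∈ B 𝒳 δ, res γ w = u ∧ v < w ∧ w < v' := by
  obtain ⟨Δ, h1, h2⟩ := F_lt_iff.mp hlt
  have hΔδ : Δ < δ := by
    by_contra hc
    rw [hv'.1.1.2.1 Δ (not_lt.mp hc)] at h2
    exact absurd h2 (not_lt.mpr (hv.1.1.1 Δ))
  have hγΔ : γ ≤ Δ := by
    by_contra hc
    have h3 : res γ v = res γ v' := by rw [hvu, hvu']
    rw [res_eq_iff.mp h3 Δ (not_le.mp hc)] at h2
    exact lt_irrefl _ h2
  have h3 := (hD δ hδ Δ hΔδ).1
  obtain ⟨w, hw, hwv, hlt'⟩ := ((hD δ hδ (sc Δ) h3).2 (res (sc Δ) v)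
    (res_mem_B hv h3.le)).1 v hv rfl
  have hlt' : v < w := hlt'
  refine ⟨w, hw, ?_, hlt', ?_⟩
  · rw [← res_res (hγΔ.trans (lt_sc Δ).le), hwv, res_res (hγΔ.trans (lt_sc Δ).le), hvu]
  · refine F_lt_iff.mpr ⟨Δ, fun j hj => ?_, ?_⟩
    · rw [res_eq_iff.mp hwv j (hj.trans (lt_sc Δ)), h1 j hj]
    · rw [res_eq_iff.mp hwv Δ (lt_sc Δ)]
      exact h2

/-- Finding a big node in a prescribed gap. -/
theorem big_gap {D : Set W} (hD : ∀ δ ∈ D, ∀ γ, γ < δ → sc γ < δ ∧ ∀ u ∈ B 𝒳 γ,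
      NoMx 𝒳 (· < ·) γ δ u ∧ NoMx 𝒳 (· > ·) γ δ u) {γ δ : W} (hδ : δ ∈ D) (hγδ : γ < δ)
    {u : F W} (hu : u ∈ B 𝒳 γ) {ι α : Type*} [LinearOrder α] (s : Finset ι) (t : ι → α) (t0 : α)
    (v : ι → F W) (hv : ∀ i ∈ s, v i ∈ B 𝒳 δ ∧ res γ (v i) = u)
    (hmono : ∀ i ∈ s, ∀ j ∈ s, t i < t j → v i < v j) :
    ∃ w ∈ B 𝒳 δ, res γ w = u ∧ ∀ i ∈ s, (t i < t0 → v i < w) ∧ (t0 < t i → w < v i) := by
  classical
  obtain ⟨w0, hw0, hw0u⟩ := exists_ext_B hu hγδ.le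
  rcases (s.filter fun i => t i < t0).eq_empty_or_nonempty with hlo | hlo
  · rcases (s.filter fun i => t0 < t i).eq_empty_or_nonempty with hhi | hhi
    · refine ⟨w0, hw0, hw0u, fun i hi => ⟨fun h => ?_, fun h => ?_⟩⟩
      · exact absurd (Finset.mem_filter.mpr ⟨hi, h⟩) (hlo ▸ Finset.notMem_empty i)
      · exact absurd (Finset.mem_filter.mpr ⟨hi, h⟩) (hhi ▸ Finset.notMem_empty i)
    · obtain ⟨b, hb, hbmin⟩ := Finset.exists_min_image _ v hhi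
      have hbs := (Finset.mem_filter.mp hb).1
      obtain ⟨w, hw, hwu, hlt⟩ := ((hD δ hδ γ hγδ).2 u hu).2 (v b) (hv b hbs).1 (hv b hbs).2
      refine ⟨w, hw, hwu, fun i hi => ⟨fun h => ?_, fun h => ?_⟩⟩
      · exact absurd (Finset.mem_filter.mpr ⟨hi, h⟩) (hlo ▸ Finset.notMem_empty i)
      · exact lt_of_lt_of_le hlt (hbmin i (Finset.mem_filter.mpr ⟨hi, h⟩))
  · obtain ⟨a, ha, hamax⟩ := Finset.exists_max_image _ v hlo
    have has := (Finset.mem_filter.mp ha).1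
    rcases (s.filter fun i => t0 < t i).eq_empty_or_nonempty with hhi | hhi
    · obtain ⟨w, hw, hwu, hlt⟩ := ((hD δ hδ γ hγδ).2 u hu).1 (v a) (hv a has).1 (hv a has).2
      refine ⟨w, hw, hwu, fun i hi => ⟨fun h => ?_, fun h => ?_⟩⟩
      · exact lt_of_le_of_lt (hamax i (Finset.mem_filter.mpr ⟨hi, h⟩)) hlt
      · exact absurd (Finset.mem_filter.mpr ⟨hi, h⟩) (hhi ▸ Finset.notMem_empty i)
    · obtain ⟨b, hb, hbmin⟩ := Finset.exists_min_image _ v hhi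
      have hbs := (Finset.mem_filter.mp hb).1
      have hab : v a < v b := hmono a has b hbs
        ((Finset.mem_filter.mp ha).2.trans (Finset.mem_filter.mp hb).2)
      obtain ⟨w, hw, hwu, h1, h2⟩ := big_dense hD hδ (hv a has).1 (hv a has).2 (hv b hbs).1
        (hv b hbs).2 hab
      refine ⟨w, hw, hwu, fun i hi => ⟨fun h => ?_, fun h => ?_⟩⟩
      · exact lt_of_le_of_lt (hamax i (Finset.mem_filter.mpr ⟨hi, h⟩)) h1
      · exact lt_of_lt_of_le h2 (hbmin i (Finset.mem_filter.mpr ⟨hi, h⟩))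

end

end Pool.Agent.W_MP_6cb7ce_lc_h1
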