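import Pool.Agent.W_MP_6cb7ce_lc_h1.Dens

/-!
The countable chain condition.
-/

set_option linter.unusedSectionVars false

namespace Pool.Agent.W_MP_6cb7ce_lc_h1

section

variable {W : Type} [LinearOrder W] [Om W] {c : Coh W}

/-- A weak form of the delta system lemma. -/
theorem delta {ι : Type*} : ∀ (n : ℕ) (A : Set ι) (Fn : ι → Finset W), ¬ A.Countable →
    (∀ α ∈ A, (Fn α).card ≤ n) →
    ∃ ε, ∀ η, ¬ {α | α ∈ A ∧ ∀ ξ ∈ Fn α, ξ < ε ∨ η ≤ ξ}.Countable := by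
  classical
  intro n
  induction n with
  | zero =>
    intro A Fn hA hcard
    refine ⟨bt, fun η h => hA (h.mono ?_)⟩
    intro α hα
    refine ⟨hα, fun ξ hξ => ?_⟩
    have h1 : Fn α = ∅ := Finset.card_eq_zero.mp (Nat.le_zero.mp (hcard α hα))
    rw [h1] at hξ
    exact absurd hξ (Finset.notMem_empty ξ)
  | succ n ih =>
    intro A Fn hA hcard
    by_cases hbt : ∀ η, ¬ {α | α ∈ A ∧ ∀ ξ ∈ Fn α, ξ < bt ∨ η ≤ ξ}.Countable
    · exact ⟨bt, hbt⟩
    push Not at hbt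
    obtain ⟨η₀, hη₀⟩ := hbt
    have hA' : ¬ (A \ {α | α ∈ A ∧ ∀ ξ ∈ Fn α, ξ < bt ∨ η₀ ≤ ξ}).Countable := by
      intro h
      apply hA
      refine (h.union hη₀).mono fun α hα => ?_
      by_cases h1 : α ∈ {α | α ∈ A ∧ ∀ ξ ∈ Fn α, ξ < bt ∨ η₀ ≤ ξ}
      · exact Or.inr h1
      · exact Or.inl ⟨hα, h1⟩
    obtain ⟨ε, hε⟩ := ih _ (fun α => (Fn α).filter fun ξ => η₀ ≤ ξ) hA' (by
      rintro α ⟨hα, h1⟩
      have h2 : ∃ ξ ∈ Fn α, ¬ η₀ ≤ ξ := by
        by_contra hc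
        push Not at hc
        exact h1 ⟨hα, fun ξ hξ => Or.inr (hc ξ hξ)⟩
      have h3 : ((Fn α).filter fun ξ => η₀ ≤ ξ).card < (Fn α).card := by
        apply Finset.card_lt_card
        rw [Finset.filter_ssubset]
        exact h2
      have := hcard α hα
      omega)
    refine ⟨max ε η₀, fun η h => hε η (h.mono ?_)⟩
    rintro α ⟨⟨hα, -⟩, h1⟩
    refine ⟨hα, fun ξ hξ => ?_⟩
    by_cases h2 : η₀ ≤ ξ
    · rcases h1 ξ (Finset.mem_filter.mpr ⟨hξ, h2⟩) with h3 | h3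
      · exact Or.inl (h3.trans_le (le_max_left _ _))
      · exact Or.inr h3
    · exact Or.inl ((not_le.mp h2).trans_le (le_max_right _ _))

/-- The support of a condition: its levels and all disagreements of its functions. -/
theorem exists_supp {𝒳 : Fam c} {D : Set W} {p : Finset (Tri W)} (hp : Valid 𝒳 D p) :
    ∃ s : Finset W, (∀ x ∈ p, x.1 ∈ s) ∧ ∀ x ∈ p, ∀ y ∈ p, ∀ a b : F W,
      (a = x.2.1 ∨ a = x.2.2) → (b = y.2.1 ∨ b = y.2.2) →
      ∀ ξ, ξ < x.1 → ξ < y.1 → a ξ ≠ b ξ → ξ ∈ s := by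
  classical
  let S : Set W := (Prod.fst '' (p : Set (Tri W))) ∪
    ⋃ x ∈ (p : Set (Tri W)), ⋃ y ∈ (p : Set (Tri W)),
      (({ξ | ξ < x.1 ∧ ξ < y.1 ∧ x.2.1 ξ ≠ y.2.1 ξ} ∪ {ξ | ξ < x.1 ∧ ξ < y.1 ∧ x.2.1 ξ ≠ y.2.2 ξ}) ∪
      ({ξ | ξ < x.1 ∧ ξ < y.1 ∧ x.2.2 ξ ≠ y.2.1 ξ} ∪ {ξ | ξ < x.1 ∧ ξ < y.1 ∧ x.2.2 ξ ≠ y.2.2 ξ}))
  have hS : S.Finite := by
    refine (p.finite_toSet.image _).union (p.finite_toSet.biUnion fun x hx =>
      p.finite_toSet.biUnion fun y hy => ?_)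
    have h1 := hp.1 x hx
    have h2 := hp.1 y hy
    exact ((T_diff_finite h1.2.1 h2.2.1).union (T_diff_finite h1.2.1 h2.2.2.1.1)).union
      ((T_diff_finite h1.2.2.1.1 h2.2.1).union (T_diff_finite h1.2.2.1.1 h2.2.2.1.1))
  refine ⟨hS.toFinset, fun x hx => ?_, fun x hx y hy a b ha hb ξ h1 h2 h3 => ?_⟩
  · rw [Set.Finite.mem_toFinset]
    exact Or.inl ⟨x, hx, rfl⟩
  · rw [Set.Finite.mem_toFinset]
    right
    simp only [Set.mem_iUnion]
    refine ⟨x, hx, y, hy, ?_⟩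
    rcases ha with rfl | rfl <;> rcases hb with rfl | rfl
    · exact Or.inl (Or.inl ⟨h1, h2, h3⟩)
    · exact Or.inl (Or.inr ⟨h1, h2, h3⟩)
    · exact Or.inr (Or.inl ⟨h1, h2, h3⟩)
    · exact Or.inr (Or.inr ⟨h1, h2, h3⟩)

/-- Small triples. -/
def Sm (c : Coh W) (ε : W) : Set (Tri W) := {x | x.1 ≤ ε ∧ x.2.1 ∈ T c x.1 ∧ x.2.2 ∈ T c x.1}

theorem Sm_countable (ε : W) : (Sm c ε).Countable := by
  have h : (⋃ δ ∈ Set.Iic ε, ({δ} : Set W) ×ˢ (T c δ ×ˢ T c δ)).Countable :=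
    (Iic_countable ε).biUnion fun δ _ =>
      (Set.countable_singleton δ).prod ((T_cnt c δ).prod (T_cnt c δ))
  refine h.mono ?_
  rintro ⟨δ, t, u⟩ ⟨h1, h2, h3⟩
  simp only [Set.mem_iUnion]
  exact ⟨δ, h1, rfl, h2, h3⟩

theorem finsets_countable {α : Type*} {S : Set α} (hS : S.Countable) :
    {q : Finset α | (q : Set α) ⊆ S}.Countable := by
  classical
  have : Countable S := hS.to_subtype
  refine (Set.countable_range (fun q : Finset S => q.map ⟨Subtype.val,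
    Subtype.val_injective⟩)).mono ?_
  intro q hq
  refine ⟨q.subtype (· ∈ S), ?_⟩
  exact Finset.subtype_map_of_mem fun x hx => hq hx

/-- Restricted triples. -/
noncomputable def tp (ε : W) (x : Tri W) : Tri W := (min x.1 ε, res ε x.2.1, res ε x.2.2)

theorem tp_mem {ε : W} {x : Tri W} (h1 : x.2.1 ∈ T c x.1) (h2 : x.2.2 ∈ T c x.1) :
    tp ε x ∈ Sm c ε := by
  rcases le_total x.1 ε with h | h
  · refine ⟨min_le_right _ _, ?_, ?_⟩
    · change res ε x.2.1 ∈ T c (min x.1 ε)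
      rw [min_eq_left h, res_self h1 h]
      exact h1
    · change res ε x.2.2 ∈ T c (min x.1 ε)
      rw [min_eq_left h, res_self h2 h]
      exact h2
  · refine ⟨min_le_right _ _, ?_, ?_⟩
    · change res ε x.2.1 ∈ T c (min x.1 ε)
      rw [min_eq_right h]
      exact res_mem_T h1 h
    · change res ε x.2.2 ∈ T c (min x.1 ε)
      rw [min_eq_right h]
      exact res_mem_T h2 h

theorem tp_small {ε : W} {x y : Tri W} (hx1 : x.2.1 ∈ T c x.1) (hx2 : x.2.2 ∈ T c x.1)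
    (hy1 : y.2.1 ∈ T c y.1) (hy2 : y.2.2 ∈ T c y.1) (h : tp ε x = tp ε y) (hx : x.1 < ε) :
    x = y := by
  have h1 : min x.1 ε = min y.1 ε := congrArg Prod.fst h
  have h2 : res ε x.2.1 = res ε y.2.1 := congrArg (fun z => z.2.1) h
  have h3 : res ε x.2.2 = res ε y.2.2 := congrArg (fun z => z.2.2) h
  rw [min_eq_left hx.le] at h1
  have hy : y.1 < ε := by
    by_contra hc
    rw [min_eq_right (not_lt.mp hc)] at h1
    exact absurd hx (by rw [h1]; exact lt_irrefl _)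
  rw [min_eq_left hy.le] at h1
  rw [res_self hx1 hx.le, res_self hy1 hy.le] at h2
  rw [res_self hx2 hx.le, res_self hy2 hy.le] at h3
  exact Prod.ext h1 (Prod.ext h2 h3)

theorem cm_same {η i : W} {a b a' b' : F W} (h : ∀ ξ, ξ < i → a ξ = b ξ)
    (h' : ∀ ξ, ξ < i → a' ξ = b' ξ) (ha : a i = a' i) (hb : b i = b' i) (hne : a i ≠ b i) :
    cm η a b = cm η a' b' := by
  rcases le_or_gt η i with h1 | h1
  · rw [cm_eq_iff.mpr (res_eq_iff.mpr fun ξ hξ => h ξ (hξ.trans_le h1)),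
      cm_eq_iff.mpr (res_eq_iff.mpr fun ξ hξ => h' ξ (hξ.trans_le h1))]
  · rcases lt_or_gt_of_ne hne with h2 | h2
    · rw [cm_lt_iff.mpr (F_lt_iff.mpr ⟨i, fun j hj => by
          rw [res_lt (hj.trans h1), res_lt (hj.trans h1), h j hj], by
          rw [res_lt h1, res_lt h1]; exact h2⟩),
        cm_lt_iff.mpr (F_lt_iff.mpr ⟨i, fun j hj => by
          rw [res_lt (hj.trans h1), res_lt (hj.trans h1), h' j hj], by
          rw [res_lt h1, res_lt h1, ← ha, ← hb]; exact h2⟩)]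
    · rw [cm_gt_iff.mpr (F_lt_iff.mpr ⟨i, fun j hj => by
          rw [res_lt (hj.trans h1), res_lt (hj.trans h1), h j hj], by
          rw [res_lt h1, res_lt h1]; exact h2⟩),
        cm_gt_iff.mpr (F_lt_iff.mpr ⟨i, fun j hj => by
          rw [res_lt (hj.trans h1), res_lt (hj.trans h1), h' j hj], by
          rw [res_lt h1, res_lt h1, ← ha, ← hb]; exact h2⟩)]

/-- The countable chain condition. -/
theorem ccc [DecidableEq (Tri W)] {𝒳 : Fam c} {D : Set W} (hunb : ∀ x, ∃ δ ∈ D, x < δ)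
    {A : Set (Finset (Tri W))} (hA : ¬ A.Countable) (hval : ∀ p ∈ A, Valid 𝒳 D p) :
    ∃ p ∈ A, ∃ q ∈ A, p ≠ q ∧ Valid 𝒳 D (p ∪ q) := by
  have hs : ∀ p : Finset (Tri W), p ∈ A → ∃ s : Finset W, (∀ x ∈ p, x.1 ∈ s) ∧
      ∀ x ∈ p, ∀ y ∈ p, ∀ a b : F W,
      (a = x.2.1 ∨ a = x.2.2) → (b = y.2.1 ∨ b = y.2.2) →
      ∀ ξ, ξ < x.1 → ξ < y.1 → a ξ ≠ b ξ → ξ ∈ s := fun p hp => exists_supp (hval p hp)
  choose! s hs1 hs2 using hs
  -- constant cardinality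
  obtain ⟨n, hn⟩ : ∃ n : ℕ, ¬ {p | p ∈ A ∧ (s p).card = n}.Countable := by
    by_contra hc
    push Not at hc
    apply hA
    refine (Set.countable_iUnion hc).mono fun p hp => ?_
    simp only [Set.mem_iUnion]
    exact ⟨(s p).card, hp, rfl⟩
  obtain ⟨ε₀, hε₀⟩ := delta n _ s hn (fun p hp => hp.2.le)
  obtain ⟨ε, hεD, hε⟩ := hunb ε₀
  have hSm : (Sm c ε).Countable := Sm_countable ε
  have hfs := finsets_countable hSm
  have hmemT : ∀ p ∈ A, ∀ x ∈ p, x.2.1 ∈ T c x.1 ∧ x.2.2 ∈ T c x.1 := fun p hp x hx =>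
    ⟨((hval p hp).1 x hx).2.1, ((hval p hp).1 x hx).2.2.1.1⟩
  -- the relation for the pigeonhole principle
  obtain ⟨⟨τ, y⟩, -, hR⟩ := pigeon_rel
    (S := {q : Finset (Tri W) | (q : Set (Tri W)) ⊆ Sm c ε} ×ˢ Sm c ε) (hfs.prod hSm)
    (fun η τy => ∃ p ∈ A, (∀ ξ ∈ s p, ξ < ε ∨ η ≤ ξ) ∧ p.image (tp ε) = τy.1 ∧
      ∃ x ∈ p, ε ≤ x.1 ∧ tp ε x = τy.2) (by
      rintro a b τy hab ⟨p, hp, h1, h2⟩
      exact ⟨p, hp, fun ξ hξ => (h1 ξ hξ).imp_right hab.trans, h2⟩) (by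
      intro η
      have h1 := hε₀ η
      have h2 : {p | p ∈ A ∧ ∀ x ∈ p, x.1 < ε}.Countable := by
        refine hfs.mono ?_
        rintro p ⟨hp, h3⟩ x hx
        exact ⟨(h3 x hx).le, hmemT p hp x hx⟩
      obtain ⟨p, ⟨⟨hp, -⟩, h3⟩, h4⟩ : ∃ p, p ∈ {α | α ∈ {p | p ∈ A ∧ (s p).card = n} ∧
          ∀ ξ ∈ s α, ξ < ε₀ ∨ η ≤ ξ} ∧ p ∉ {p | p ∈ A ∧ ∀ x ∈ p, x.1 < ε} := by
        by_contra hc
        push Not at hc
        exact h1 (h2.mono hc)
      have h5 : ∃ x ∈ p, ε ≤ x.1 := by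
        by_contra hc
        push Not at hc
        exact h4 ⟨hp, hc⟩
      obtain ⟨x, hx, hx1⟩ := h5
      refine ⟨(p.image (tp ε), tp ε x), ⟨?_, ?_⟩, p, hp, fun ξ hξ => ?_, rfl, x, hx, hx1, rfl⟩
      · intro z hz
        obtain ⟨w, hw, rfl⟩ := Finset.mem_image.mp (Finset.mem_coe.mp hz)
        exact tp_mem (hmemT p hp w hw).1 (hmemT p hp w hw).2
      · exact tp_mem (hmemT p hp x hx).1 (hmemT p hp x hx).2
      · exact (h3 ξ hξ).imp_left fun h => h.trans hε)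
  choose p hpA hpε hpτ x hxp hxε hxy using hR
  have hbig : ∀ η, ∀ z ∈ p η, ε ≤ z.1 → η ≤ z.1 := fun η z hz h =>
    (hpε η _ (hs1 _ (hpA η) z hz)).resolve_left (not_lt.mpr h)
  have hxη : ∀ η, η ≤ (x η).1 := fun η => hbig η _ (hxp η) (hxε η)
  have hxT : ∀ η, (x η).2.1 ∈ T c (x η).1 := fun η => (hmemT _ (hpA η) _ (hxp η)).1
  -- two incoherent functions
  obtain ⟨γ, δ, hγδ, hne⟩ : ∃ γ δ, γ ≤ δ ∧ res γ (x γ).2.1 ≠ res γ (x δ).2.1 := by
    by_contra hc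
    push Not at hc
    refine no_branch' (c := c) (fun η => res η (x η).2.1) (fun η => res_mem_T (hxT η) (hxη η))
      fun γ δ h => ?_
    rw [res_res h, hc γ δ h]
  obtain ⟨i, hi1, hi2⟩ := exists_first_diff hne
  have hiγ : i < γ := by
    by_contra hc
    rw [res_ge (not_lt.mp hc), res_ge (not_lt.mp hc)] at hi2
    exact hi2 rfl
  have hj : ∀ j, j < i → (x γ).2.1 j = (x δ).2.1 j := fun j hj => by
    have h := hi1 j hj
    rw [res_lt (hj.trans hiγ), res_lt (hj.trans hiγ)] at h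
    exact h
  have hidiff : (x γ).2.1 i ≠ (x δ).2.1 i := by
    rw [res_lt hiγ, res_lt hiγ] at hi2
    exact hi2
  have hεi : ε ≤ i := by
    by_contra hc
    have h1 : res ε (x γ).2.1 = res ε (x δ).2.1 := by
      have h2 : tp ε (x γ) = tp ε (x δ) := by rw [hxy γ, hxy δ]
      exact congrArg (fun z => z.2.1) h2
    exact hidiff (res_eq_iff.mp h1 i (not_le.mp hc))
  -- the common function
  have hcom : ∀ η, ∀ z ∈ p η, ε ≤ z.1 → ∀ ξ, ε ≤ ξ → ξ < η →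
      z.2.1 ξ = (x η).2.1 ξ ∧ z.2.2 ξ = (x η).2.1 ξ := by
    intro η z hz hzε ξ h1 h2
    have h3 : ξ ∉ s (p η) := fun h => by
      rcases hpε η ξ h with h4 | h4
      · exact absurd h1 (not_le.mpr h4)
      · exact absurd h2 (not_lt.mpr h4)
    have h5 := h2.trans_le (hbig η z hz hzε)
    have h6 := h2.trans_le (hxη η)
    constructor
    · by_contra hc
      exact h3 (hs2 _ (hpA η) z hz (x η) (hxp η) _ _ (Or.inl rfl) (Or.inl rfl) ξ h5 h6 hc)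
    · by_contra hc
      exact h3 (hs2 _ (hpA η) z hz (x η) (hxp η) _ _ (Or.inr rfl) (Or.inl rfl) ξ h5 h6 hc)
  have hpartner : ∀ η η', ∀ z ∈ p η, ∃ z' ∈ p η', tp ε z = tp ε z' := by
    intro η η' z hz
    have h1 : tp ε z ∈ (p η').image (tp ε) := by
      rw [hpτ η', ← hpτ η]
      exact Finset.mem_image_of_mem _ hz
    obtain ⟨z', hz', h2⟩ := Finset.mem_image.mp h1
    exact ⟨z', hz', h2.symm⟩
  have hsmall : ∀ η η', ∀ z ∈ p η, z.1 < ε → z ∈ p η' := by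
    intro η η' z hz hzε
    obtain ⟨z', hz', h1⟩ := hpartner η η' z hz
    have h2 := hmemT _ (hpA η) z hz
    have h3 := hmemT _ (hpA η') z' hz'
    rw [tp_small h2.1 h2.2 h3.1 h3.2 h1 hzε]
    exact hz'
  have hcross : ∀ y ∈ p γ, ∀ z ∈ p δ, Good D y z := by
    intro y hy z hz
    rcases lt_or_ge y.1 ε with hyε | hyε
    · exact (hval _ (hpA δ)).2 y (hsmall γ δ y hy hyε) z hz
    rcases lt_or_ge z.1 ε with hzε | hzε
    · exact (hval _ (hpA γ)).2 y hy z (hsmall δ γ z hz hzε)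
    obtain ⟨y', hy', htp⟩ := hpartner γ δ y hy
    have h1 : res ε y.2.1 = res ε y'.2.1 := congrArg (fun z => z.2.1) htp
    have h2 : res ε y.2.2 = res ε y'.2.2 := congrArg (fun z => z.2.2) htp
    have hy'ε : ε ≤ y'.1 := by
      have h3 : min y.1 ε = min y'.1 ε := congrArg Prod.fst htp
      rw [min_eq_right hyε] at h3
      rw [h3]
      exact min_le_left _ _
    have hlow : ∀ η ∈ D, η ≤ ε → cm η y.2.1 z.2.1 = cm η y.2.2 z.2.2 := by
      intro η hη hle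
      rw [cm_congr (res_eq_mono hle h1) rfl, cm_congr (res_eq_mono hle h2) rfl]
      exact (hval _ (hpA δ)).2 y' hy' z hz η hη (hle.trans hy'ε) (hle.trans hzε)
    intro η hη _ _
    rcases le_or_gt η ε with hηε | hηε
    · exact hlow η hη hηε
    have h0 := hlow ε hεD le_rfl
    by_cases heq : res ε y.2.1 = res ε z.2.1
    · have heq2 : res ε y.2.2 = res ε z.2.2 := by
        rw [cm_eq_iff.mpr heq] at h0
        exact cm_eq_iff.mp h0.symm
      have hyi := hcom γ y hy hyε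
      have hzi := hcom δ z hz hzε
      refine cm_same (i := i) (fun ξ hξ => ?_) (fun ξ hξ => ?_) ?_ ?_ ?_
      · rcases lt_or_ge ξ ε with h3 | h3
        · exact res_eq_iff.mp heq ξ h3
        · rw [(hyi ξ h3 (hξ.trans hiγ)).1, (hzi ξ h3 ((hξ.trans hiγ).trans_le hγδ)).1, hj ξ hξ]
      · rcases lt_or_ge ξ ε with h3 | h3
        · exact res_eq_iff.mp heq2 ξ h3
        · rw [(hyi ξ h3 (hξ.trans hiγ)).2, (hzi ξ h3 ((hξ.trans hiγ).trans_le hγδ)).2, hj ξ hξ]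
      · rw [(hyi i hεi hiγ).1, (hyi i hεi hiγ).2]
      · rw [(hzi i hεi (hiγ.trans_le hγδ)).1, (hzi i hεi (hiγ.trans_le hγδ)).2]
      · rw [(hyi i hεi hiγ).1, (hzi i hεi (hiγ.trans_le hγδ)).1]
        exact hidiff
    · have heq2 : res ε y.2.2 ≠ res ε z.2.2 := fun h => by
        rw [cm_eq_iff.mpr h] at h0
        exact heq (cm_eq_iff.mp h0)
      rw [cm_stable hηε.le heq, cm_stable hηε.le heq2, h0]
  refine ⟨p γ, hpA γ, p δ, hpA δ, fun h => ?_, fun y hy => ?_, fun y hy z hz => ?_⟩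
  · -- distinct
    have h1 : x δ ∈ p γ := h ▸ hxp δ
    have h2 := hs2 _ (hpA γ) (x γ) (hxp γ) (x δ) h1 _ _ (Or.inl rfl) (Or.inl rfl) i
      (hiγ.trans_le (hxη γ)) (hiγ.trans_le (hγδ.trans (hxη δ))) hidiff
    rcases hpε γ i h2 with h3 | h3
    · exact absurd hεi (not_le.mpr h3)
    · exact absurd hiγ (not_lt.mpr h3)
  · rcases Finset.mem_union.mp hy with h | h
    · exact (hval _ (hpA γ)).1 y h
    · exact (hval _ (hpA δ)).1 y h
  · rcases Finset.mem_union.mp hy with h | h <;> rcases Finset.mem_union.mp hz with h' | h'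
    · exact (hval _ (hpA γ)).2 y h z h'
    · exact hcross y h z h'
    · exact (hcross z h' y h).symm
    · exact (hval _ (hpA δ)).2 y h z h'

end

end Pool.Agent.W_MP_6cb7ce_lc_h1
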