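import Pool.Agent.W_MP_6cb7ce_lc_h1.Ccc
import Pool.Agent.W_MP_6cb7ce_lc_h1.MA

/-!
The generic embedding.
-/

set_option linter.unusedSectionVars false

namespace Pool.Agent.W_MP_6cb7ce_lc_h1

section

variable {W : Type} [LinearOrder W] [Om W] {c : Coh W}

/-- The forcing notion. -/
structure Cond (𝒳 : Fam c) (D : Set W) where
  p : Finset (Tri W)
  val : Valid 𝒳 D p

instance (𝒳 : Fam c) (D : Set W) : Preorder (Cond 𝒳 D) where
  le a b := b.p ⊆ a.p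
  le_refl a := Finset.Subset.refl _
  le_trans a b d h1 h2 := Finset.Subset.trans h2 h1

theorem cond_le {𝒳 : Fam c} {D : Set W} {a b : Cond 𝒳 D} : a ≤ b ↔ b.p ⊆ a.p := Iff.rfl

instance (𝒳 : Fam c) (D : Set W) : Nonempty (Cond 𝒳 D) :=
  ⟨⟨∅, fun x hx => absurd hx (Finset.notMem_empty x), fun x hx =>
    absurd hx (Finset.notMem_empty x)⟩⟩

theorem cond_ccc {𝒳 : Fam c} {D : Set W} (hunb : ∀ x, ∃ δ ∈ D, x < δ) : IsCCC (Cond 𝒳 D) := by
  classical
  intro A hA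
  by_contra hc
  have hinj : Function.Injective (Cond.p : Cond 𝒳 D → Finset (Tri W)) := by
    rintro ⟨p, hp⟩ ⟨q, hq⟩ h
    change p = q at h
    subst h
    rfl
  have h1 : ¬ (Cond.p '' A).Countable := fun h =>
    hc (Set.countable_of_injective_of_countable_image hinj.injOn h)
  obtain ⟨_, ⟨a, ha, rfl⟩, _, ⟨b, hb, rfl⟩, hne, hv⟩ := ccc (𝒳 := 𝒳) (D := D) hunb h1 (by
    rintro _ ⟨a, -, rfl⟩
    exact a.val)
  refine hA a ha b hb (fun h => hne (by rw [h])) ⟨⟨a.p ∪ b.p, hv⟩, ?_, ?_⟩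
  · exact cond_le.mpr Finset.subset_union_left
  · exact cond_le.mpr Finset.subset_union_right

/-- The generic map on all nodes at good levels. -/
theorem exists_generic (hMA : MartinsAxiomAlephOne) (hW : Cardinal.mk W ≤ Cardinal.aleph 1)
    (𝒳 : Fam c) : ∃ D : Set W, (∀ x, ∃ δ ∈ D, x < δ) ∧ ∃ π : W → F W → F W,
      (∀ δ ∈ D, ∀ t ∈ T c δ, π δ t ∈ B 𝒳 δ) ∧
      ∀ δ ∈ D, ∀ t ∈ T c δ, ∀ δ' ∈ D, ∀ t' ∈ T c δ',
        Good D (δ, t, π δ t) (δ', t', π δ' t') := by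
  classical
  obtain ⟨D, hbt, hcl, hunb, hD⟩ := exists_good_club 𝒳
  refine ⟨D, hunb, ?_⟩
  -- enumeration of the levels
  have hen : ∀ δ, ∃ g : ℕ → F W, T c δ = Set.range g := fun δ =>
    (T_cnt c δ).exists_eq_range ⟨_, (glue_canon (c := c) δ).1⟩
  choose g hg using hen
  have hgm : ∀ δ n, g δ n ∈ T c δ := fun δ n => by rw [hg δ]; exact ⟨n, rfl⟩
  obtain ⟨G, hG, hmeet⟩ := hMA (Cond 𝒳 D) (cond_ccc hunb) (W × ℕ)
    (fun i => {a | i.1 ∈ D → ∃ u, (i.1, g i.1 i.2, u) ∈ a.p}) (by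
      rw [Cardinal.mk_prod, Cardinal.lift_id, Cardinal.lift_id, Cardinal.mk_nat]
      exact (mul_le_mul' hW (Cardinal.aleph0_le_aleph 1)).trans
        (Cardinal.mul_eq_self (Cardinal.aleph0_le_aleph 1)).le) (by
      rintro ⟨δ, n⟩ a
      by_cases hδ : δ ∈ D
      · obtain ⟨u, hu⟩ := density hbt hcl hD a.val hδ (hgm δ n)
        refine ⟨⟨_, hu⟩, fun _ => ⟨u, Finset.mem_insert_self _ _⟩, ?_⟩
        exact cond_le.mpr (Finset.subset_insert _ _)
      · exact ⟨a, fun h => absurd h hδ, le_rfl⟩)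
  have hex : ∀ δ t, δ ∈ D → t ∈ T c δ → ∃ u, ∃ a ∈ G, (δ, t, u) ∈ a.p := by
    intro δ t hδ ht
    rw [hg δ] at ht
    obtain ⟨n, rfl⟩ := ht
    obtain ⟨a, haG, ha⟩ := hmeet (δ, n)
    obtain ⟨u, hu⟩ := ha hδ
    exact ⟨u, a, haG, hu⟩
  choose! π hπ using hex
  refine ⟨π, fun δ hδ t ht => ?_, fun δ hδ t ht δ' hδ' t' ht' => ?_⟩
  · obtain ⟨a, -, ha⟩ := hπ δ t hδ ht
    exact (a.val.1 _ ha).2.2
  · obtain ⟨a, haG, ha⟩ := hπ δ t hδ ht
    obtain ⟨b, hbG, hb⟩ := hπ δ' t' hδ' ht'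
    obtain ⟨r, -, hra, hrb⟩ := hG.directed a haG b hbG
    exact r.val.2 _ (cond_le.mp hra ha) _ (cond_le.mp hrb hb)

/-- The linear order `L`: the nodes of the tree of positive functions, ordered
lexicographically. -/
def L (c : Coh W) : Type := {q : F W // ∃ δ, q ∈ U c δ}

noncomputable instance (c : Coh W) : LinearOrder (L c) :=
  inferInstanceAs (LinearOrder {q : F W // ∃ δ, q ∈ U c δ})

theorem L_lt_iff {q q' : L c} : q < q' ↔ q.1 < q'.1 := Iff.rfl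

/-- The height of a node. -/
noncomputable def ht (q : L c) : W := q.2.choose

theorem ht_spec (q : L c) : q.1 ∈ U c (ht q) := q.2.choose_spec

theorem ht_eq {q : L c} {δ : W} (h : q.1 ∈ U c δ) : ht q = δ := U_height_unique (ht_spec q) h

/-- The core lemma. -/
theorem core (hMA : MartinsAxiomAlephOne) (hW : Cardinal.mk W ≤ Cardinal.aleph 1)
    (X : W → Set (L c)) (hanti : ∀ a b, a ≤ b → X b ⊆ X a) (hne : ∀ a, (X a).Nonempty)
    (hht : ∀ a, ∀ x ∈ X a, a ≤ ht x) :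
    ∃ g : L c → L c, StrictMono g ∧ ∀ q, g q ∈ X (ht q) := by
  let 𝒳 : Fam c :=
    { X := fun a => Subtype.val '' X a
      anti := fun a b h => Set.image_mono (hanti a b h)
      ne := fun a => (hne a).image _
      ht := by
        rintro a _ ⟨x, hx, rfl⟩
        exact ⟨ht x, hht a x hx, ht_spec x⟩ }
  obtain ⟨D, hunb, π, hπ, hgood⟩ := exists_generic hMA hW 𝒳
  choose nx hnx1 hnx2 using hunb
  -- the extension of a node to a good level
  let hat : L c → F W := fun q => glue c (nx (ht q)) (sc (ht q)) q.1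
  have hat_lt : ∀ q ξ, ξ ≤ ht q → hat q ξ = q.1 ξ := fun q ξ h => glue_lt (lt_sc_iff.mpr h)
  have hat_mem : ∀ q : L c, hat q ∈ T c (nx (ht q)) := by
    intro q
    -- `q.1` belongs to the big tree at level `sc (ht q)`
    have h1 : q.1 ∈ T c (sc (ht q)) := by
      have h0 := (ht_spec q).1
      refine ⟨h0.1, fun ξ hξ => h0.2.1 ξ ((lt_sc _).le.trans hξ), ?_⟩
      refine Set.Finite.subset ((h0.2.2.union (c.coh _ _ (lt_sc (ht q)).le)).union
        (Set.finite_singleton (ht q))) ?_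
      rintro ξ ⟨h2, h3⟩
      rcases (lt_sc_iff.mp h2).eq_or_lt with h4 | h4
      · exact Or.inr h4
      · left
        by_cases h5 : c.e (ht q) ξ = c.e (sc (ht q)) ξ
        · left
          rw [← h5] at h3
          exact ⟨h4, h3⟩
        · right
          exact ⟨h4, h5⟩
    exact glue_mem_T h1 le_rfl (sc_le (hnx2 _))
  have hbig : ∀ q : L c, ∃ x ∈ X (ht q), res (nx (ht q)) x.1 = π (nx (ht q)) (hat q) := by
    intro q
    obtain ⟨_, ⟨x, hx, rfl⟩, h⟩ := (hπ _ (hnx1 _) _ (hat_mem q)).2 (ht q)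
    exact ⟨x, hx, h⟩
  choose g hg1 hg2 using hbig
  refine ⟨g, fun q q' hlt => ?_, hg1⟩
  obtain ⟨Δ, h1, h2⟩ := F_lt_iff.mp (L_lt_iff.mp hlt)
  have hq := ht_spec q
  have hq' := ht_spec q'
  have hΔ' : Δ < ht q' := by
    by_contra hc
    rw [hq'.1.2.1 Δ (not_lt.mp hc)] at h2
    exact absurd h2 (not_lt.mpr (hq.1.1 Δ))
  have hΔ : Δ ≤ ht q := by
    by_contra hc
    have h3 := h1 (ht q) (not_le.mp hc)
    rw [hq.1.2.1 _ le_rfl] at h3
    exact absurd (hq'.2 (ht q) ((not_le.mp hc).trans hΔ')) (by rw [← h3]; exact lt_irrefl _)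
  have hhat : hat q < hat q' := by
    refine F_lt_iff.mpr ⟨Δ, fun j hj => ?_, ?_⟩
    · rw [hat_lt q j (hj.le.trans hΔ), hat_lt q' j (hj.le.trans hΔ'.le), h1 j hj]
    · rw [hat_lt q Δ hΔ, hat_lt q' Δ hΔ'.le]
      exact h2
  -- the smaller good level
  obtain ⟨η, hη, hηq, hηq', hΔη⟩ : ∃ η ∈ D, η ≤ nx (ht q) ∧ η ≤ nx (ht q') ∧ Δ < η := by
    rcases le_total (nx (ht q)) (nx (ht q')) with h | h
    · exact ⟨_, hnx1 _, le_rfl, h, hΔ.trans_lt (hnx2 _)⟩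
    · exact ⟨_, hnx1 _, h, le_rfl, hΔ'.trans (hnx2 _)⟩
  have h3 := hgood _ (hnx1 (ht q)) _ (hat_mem q) _ (hnx1 (ht q')) _ (hat_mem q') η hη hηq hηq'
  change cm η (hat q) (hat q') = cm η (π (nx (ht q)) (hat q)) (π (nx (ht q')) (hat q')) at h3
  have h4 : res η (hat q) < res η (hat q') := by
    refine F_lt_iff.mpr ⟨Δ, fun j hj => ?_, ?_⟩
    · rw [res_lt (hj.trans hΔη), res_lt (hj.trans hΔη), hat_lt q j (hj.le.trans hΔ),
        hat_lt q' j (hj.le.trans hΔ'.le), h1 j hj]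
    · rw [res_lt hΔη, res_lt hΔη, hat_lt q Δ hΔ, hat_lt q' Δ hΔ'.le]
      exact h2
  rw [cm_lt_iff.mpr h4] at h3
  have h5 := cm_lt_iff.mp h3.symm
  rw [← hg2 q, ← hg2 q', res_res hηq, res_res hηq'] at h5
  exact L_lt_iff.mpr (lt_of_res_lt h5)

end

end Pool.Agent.W_MP_6cb7ce_lc_h1
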