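import Pool.Agent.W_MP_6cb7ce_lc_h1.Big

/-!
Conditions of the forcing and density.
-/

set_option linter.unusedSectionVars false

namespace Pool.Agent.W_MP_6cb7ce_lc_h1

section

variable {W : Type} [LinearOrder W] [Om W] {c : Coh W}

/-- Triples (level, node, big node). -/
abbrev Tri (W : Type) : Type := W × F W × F W

open Classical in
/-- Comparison of restrictions. -/
noncomputable def cm (γ : W) (a b : F W) : Ordering :=
  if res γ a < res γ b then Ordering.lt else if res γ b < res γ a then Ordering.gt else Ordering.eq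

theorem cm_lt_iff {γ : W} {a b : F W} : cm γ a b = Ordering.lt ↔ res γ a < res γ b := by
  unfold cm
  split_ifs with h1 h2
  · simp [h1]
  · simp [h1]
  · simp [h1]

theorem cm_gt_iff {γ : W} {a b : F W} : cm γ a b = Ordering.gt ↔ res γ b < res γ a := by
  unfold cm
  split_ifs with h1 h2
  · simp only [false_iff]
    exact not_lt.mpr h1.le
  · simp [h2]
  · simp [h2]

theorem cm_eq_iff {γ : W} {a b : F W} : cm γ a b = Ordering.eq ↔ res γ a = res γ b := by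
  unfold cm
  split_ifs with h1 h2
  · simp only [false_iff]
    exact h1.ne
  · simp only [false_iff]
    exact h2.ne'
  · simp only [true_iff]
    exact le_antisymm (not_lt.mp h2) (not_lt.mp h1)

theorem cm_swap (γ : W) (a b : F W) : (cm γ a b).swap = cm γ b a := by
  rcases lt_trichotomy (res γ a) (res γ b) with h | h | h
  · rw [cm_lt_iff.mpr h, cm_gt_iff.mpr h]
    rfl
  · rw [cm_eq_iff.mpr h, cm_eq_iff.mpr h.symm]
    rfl
  · rw [cm_gt_iff.mpr h, cm_lt_iff.mpr h]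
    rfl

theorem cm_self (γ : W) (a : F W) : cm γ a a = Ordering.eq := cm_eq_iff.mpr rfl

theorem cm_stable {γ δ : W} (h : γ ≤ δ) {a b : F W} (hne : res γ a ≠ res γ b) :
    cm δ a b = cm γ a b := by
  rcases lt_or_gt_of_ne hne with h1 | h1
  · rw [cm_lt_iff.mpr h1, cm_lt_iff.mpr (res_lt_mono h h1)]
  · rw [cm_gt_iff.mpr h1, cm_gt_iff.mpr (res_lt_mono h h1)]

theorem cm_congr {γ : W} {a a' b b' : F W} (ha : res γ a = res γ a') (hb : res γ b = res γ b') :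
    cm γ a b = cm γ a' b' := by
  rw [cm, cm, ha, hb]

/-- The two nodes of each triple are compared in the same way on all good levels. -/
def Good (D : Set W) (x y : Tri W) : Prop :=
  ∀ γ ∈ D, γ ≤ x.1 → γ ≤ y.1 → cm γ x.2.1 y.2.1 = cm γ x.2.2 y.2.2

theorem Good.symm {D : Set W} {x y : Tri W} (h : Good D x y) : Good D y x := by
  intro γ hγ h1 h2
  rw [← cm_swap, h γ hγ h2 h1, cm_swap]

theorem Good.refl (D : Set W) (x : Tri W) : Good D x x := by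
  intro γ _ _ _
  rw [cm_self, cm_self]

/-- Conditions. -/
def Valid (𝒳 : Fam c) (D : Set W) (p : Finset (Tri W)) : Prop :=
  (∀ x ∈ p, x.1 ∈ D ∧ x.2.1 ∈ T c x.1 ∧ x.2.2 ∈ B 𝒳 x.1) ∧ ∀ x ∈ p, ∀ y ∈ p, Good D x y

variable {𝒳 : Fam c} {D : Set W}

theorem valid_insert [DecidableEq (Tri W)] {p : Finset (Tri W)} (hp : Valid 𝒳 D p) {x : Tri W}
    (hx : x.1 ∈ D ∧ x.2.1 ∈ T c x.1 ∧ x.2.2 ∈ B 𝒳 x.1) (hg : ∀ y ∈ p, Good D x y) :
    Valid 𝒳 D (insert x p) := by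
  refine ⟨fun y hy => ?_, fun y hy z hz => ?_⟩
  · rcases Finset.mem_insert.mp hy with h | hy'
    · rw [h]
      exact hx
    · exact hp.1 y hy'
  · rcases Finset.mem_insert.mp hy with h | hy'
    · rcases Finset.mem_insert.mp hz with h' | hz'
      · rw [h, h']
        exact Good.refl D _
      · rw [h]
        exact hg z hz'
    · rcases Finset.mem_insert.mp hz with h' | hz'
      · rw [h']
        exact (hg y hy').symm
      · exact hp.2 y hy' z hz'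

theorem exists_max_agree (hcl : ∀ x, ∃ m ∈ D, m ≤ x ∧ ∀ γ ∈ D, γ ≤ x → γ ≤ m) (η : W)
    (t u : F W) : ∃ m ∈ D, m ≤ η ∧ res m t = res m u ∧
      ∀ γ ∈ D, γ ≤ η → res γ t = res γ u → γ ≤ m := by
  by_cases h : t = u
  · obtain ⟨m, hm, h1, h2⟩ := hcl η
    exact ⟨m, hm, h1, by rw [h], fun γ hγ hle _ => h2 γ hγ hle⟩
  · obtain ⟨i, hi1, hi2⟩ := exists_first_diff h
    obtain ⟨m, hm, h1, h2⟩ := hcl (min η i)
    refine ⟨m, hm, h1.trans (min_le_left _ _), res_eq_iff.mpr fun ξ hξ =>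
      hi1 ξ (hξ.trans_le (h1.trans (min_le_right _ _))), fun γ hγ hle heq => h2 γ hγ ?_⟩
    refine le_min hle ?_
    by_contra hc
    exact hi2 (res_eq_iff.mp heq i (not_le.mp hc))

/-- The largest level where the new node is determined. -/
theorem exists_start (hbt : bt ∈ D) (hcl : ∀ x, ∃ m ∈ D, m ≤ x ∧ ∀ γ ∈ D, γ ≤ x → γ ≤ m)
    {p : Finset (Tri W)} (hp : Valid 𝒳 D p) {δ : W} (t : F W) :
    ∃ γ₀ ∈ D, γ₀ ≤ δ ∧ ∃ w ∈ B 𝒳 γ₀,
      (∀ x ∈ p, ∀ γ ∈ D, γ ≤ γ₀ → γ ≤ x.1 → cm γ t x.2.1 = cm γ w x.2.2) ∧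
      ∀ x ∈ p, ∀ γ ∈ D, γ₀ < γ → γ ≤ δ → γ ≤ x.1 → res γ t ≠ res γ x.2.1 := by
  rcases p.eq_empty_or_nonempty with rfl | hne
  · obtain ⟨w, hw⟩ := B_bt (𝒳 := 𝒳)
    refine ⟨bt, hbt, bt_le δ, w, hw, fun x hx => absurd hx (Finset.notMem_empty x),
      fun x hx => absurd hx (Finset.notMem_empty x)⟩
  · have hex := fun x : Tri W => exists_max_agree hcl (min δ x.1) t x.2.1
    choose m hm1 hm2 hm3 hm4 using hex
    obtain ⟨y, hy, hmax⟩ := Finset.exists_max_image p m hne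
    refine ⟨m y, hm1 y, (hm2 y).trans (min_le_left _ _), res (m y) y.2.2,
      res_mem_B (hp.1 y hy).2.2 ((hm2 y).trans (min_le_right _ _)), ?_, ?_⟩
    · intro x hx γ hγ hle hx1
      have h1 : cm γ t x.2.1 = cm γ y.2.1 x.2.1 := cm_congr (res_eq_mono hle (hm3 y)) rfl
      have h2 : cm γ (res (m y) y.2.2) x.2.2 = cm γ y.2.2 x.2.2 := cm_congr (res_res hle _) rfl
      rw [h1, h2]
      exact hp.2 y hy x hx γ hγ (hle.trans ((hm2 y).trans (min_le_right _ _))) hx1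
    · intro x hx γ hγ hlt hδ hx1 heq
      exact absurd (hm4 x γ hγ (le_min hδ hx1) heq) (not_le.mpr ((hmax x hx).trans_lt hlt))

/-- Density. -/
theorem density [DecidableEq (Tri W)] (hbt : bt ∈ D)
    (hcl : ∀ x, ∃ m ∈ D, m ≤ x ∧ ∀ γ ∈ D, γ ≤ x → γ ≤ m)
    (hD : ∀ δ ∈ D, ∀ γ, γ < δ → sc γ < δ ∧ ∀ u ∈ B 𝒳 γ,
      NoMx 𝒳 (· < ·) γ δ u ∧ NoMx 𝒳 (· > ·) γ δ u)
    {p : Finset (Tri W)} (hp : Valid 𝒳 D p) {δ : W} (hδ : δ ∈ D) {t : F W} (ht : t ∈ T c δ) :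
    ∃ u, Valid 𝒳 D (insert (δ, t, u) p) := by
  classical
  obtain ⟨γ₀, hγ₀, hle, w, hw, h1, h2⟩ := exists_start hbt hcl hp (δ := δ) t
  rcases hle.eq_or_lt with rfl | hlt
  · exact ⟨w, valid_insert hp ⟨hδ, ht, hw⟩ fun y hy γ hγ ha hb => h1 y hy γ hγ ha hb⟩
  -- the next good level
  have hne : {γ | γ ∈ D ∧ γ₀ < γ}.Nonempty := ⟨δ, hδ, hlt⟩
  obtain ⟨γ₁, hγ₁, hγ₀₁, hmin⟩ : ∃ γ₁ ∈ D, γ₀ < γ₁ ∧ ∀ γ ∈ D, γ₀ < γ → γ₁ ≤ γ :=
    ⟨wellFounded_lt.min _ hne, (wellFounded_lt.min_mem _ hne).1, (wellFounded_lt.min_mem _ hne).2,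
      fun γ hγ h => not_lt.mp fun hc => wellFounded_lt.not_lt_min {γ | γ ∈ D ∧ γ₀ < γ} ⟨hγ, h⟩ hc⟩
  have hγ₁δ : γ₁ ≤ δ := hmin δ hδ hlt
  let s := p.filter fun x => γ₁ ≤ x.1 ∧ res γ₀ x.2.1 = res γ₀ t
  have hs : ∀ x ∈ s, x ∈ p ∧ γ₁ ≤ x.1 ∧ res γ₀ x.2.1 = res γ₀ t := fun x hx => by
    have h := Finset.mem_filter.mp hx
    exact ⟨h.1, h.2.1, h.2.2⟩
  obtain ⟨w', hw', hw'w, hgap⟩ := big_gap hD hγ₁ hγ₀₁ hw s (fun x : Tri W => res γ₁ x.2.1)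
    (res γ₁ t) (fun x => res γ₁ x.2.2) (by
      intro x hx
      obtain ⟨hxp, hx1, hx2⟩ := hs x hx
      refine ⟨res_mem_B (hp.1 x hxp).2.2 hx1, ?_⟩
      have h3 := h1 x hxp γ₀ hγ₀ le_rfl (hγ₀₁.le.trans hx1)
      rw [cm_eq_iff.mpr hx2.symm] at h3
      have h4 := cm_eq_iff.mp h3.symm
      rw [res_self hw.1.1 le_rfl] at h4
      rw [res_res hγ₀₁.le, h4]) (by
      intro x hx y hy hxy
      obtain ⟨hxp, hx1, -⟩ := hs x hx
      obtain ⟨hyp, hy1, -⟩ := hs y hy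
      have h3 := hp.2 x hxp y hyp γ₁ hγ₁ hx1 hy1
      rw [cm_lt_iff.mpr hxy] at h3
      exact cm_lt_iff.mp h3.symm)
  obtain ⟨u, hu, huw⟩ := exists_ext_B hw' hγ₁δ
  refine ⟨u, valid_insert hp ⟨hδ, ht, hu⟩ fun x hx γ hγ ha hb => ?_⟩
  change γ ≤ δ at ha
  change cm γ t x.2.1 = cm γ u x.2.2
  have huw0 : res γ₀ u = w := by rw [← res_res hγ₀₁.le, huw, hw'w]
  have hww : res γ₀ w = w := res_self hw.1.1 le_rfl
  rcases le_or_gt γ γ₀ with hγγ₀ | hγγ₀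
  · rw [h1 x hx γ hγ hγγ₀ hb]
    refine cm_congr ?_ rfl
    exact res_eq_mono hγγ₀ (by rw [huw0, hww])
  · have hγ₁γ : γ₁ ≤ γ := hmin γ hγ hγγ₀
    have hx1 : γ₁ ≤ x.1 := hγ₁γ.trans hb
    by_cases hag : res γ₀ x.2.1 = res γ₀ t
    · have hxs : x ∈ s := Finset.mem_filter.mpr ⟨hx, hx1, hag⟩
      have hne := h2 x hx γ₁ hγ₁ hγ₀₁ hγ₁δ hx1
      obtain ⟨hg1, hg2⟩ := hgap x hxs
      rcases lt_or_gt_of_ne hne with h | h
      · have h5 : res γ₁ u < res γ₁ x.2.2 := by rw [huw]; exact hg2 h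
        rw [cm_lt_iff.mpr (res_lt_mono hγ₁γ h), cm_lt_iff.mpr (res_lt_mono hγ₁γ h5)]
      · have h5 : res γ₁ x.2.2 < res γ₁ u := by rw [huw]; exact hg1 h
        rw [cm_gt_iff.mpr (res_lt_mono hγ₁γ h), cm_gt_iff.mpr (res_lt_mono hγ₁γ h5)]
    · have h3 := h1 x hx γ₀ hγ₀ le_rfl (hγ₀₁.le.trans hx1)
      have h4 : cm γ₀ w x.2.2 = cm γ₀ u x.2.2 := cm_congr (by rw [huw0, hww]) rfl
      rw [cm_stable hγγ₀.le (fun h => hag h.symm), h3, h4]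
      refine (cm_stable hγγ₀.le fun h => hag ?_).symm
      rw [← cm_eq_iff, ← h4, ← h3, cm_eq_iff] at h
      exact h.symm

end

end Pool.Agent.W_MP_6cb7ce_lc_h1
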