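import Pool.Agent.W_MP_6cb7ce_lc_h1.Om

/-!
Lexicographic sums of well orders along a homogeneous line.
-/

set_option linter.unusedSectionVars false

open Cardinal

namespace Pool.Agent.W_MP_6cb7ce_lc_h1

theorem wo_embed {α β : Type} [LinearOrder α] [LinearOrder β] [WellFoundedLT α] [WellFoundedLT β]
    (h : #α < #β) : Nonempty (α ↪o β) := by
  have h1 : Ordinal.type (α := α) (· < ·) ≤ Ordinal.type (α := β) (· < ·) := by
    by_contra hc
    have h2 := Ordinal.card_le_card (not_le.mp hc).le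
    rw [Ordinal.card_type, Ordinal.card_type] at h2
    exact absurd h (not_lt.mpr h2)
  obtain ⟨f⟩ := Ordinal.type_le_iff'.mp h1
  exact ⟨f.orderEmbeddingOfLTEmbedding⟩

theorem wf_of_strictMono {α β : Type} [Preorder α] [Preorder β] [WellFoundedLT β] {f : α → β}
    (hf : StrictMono f) : WellFoundedLT α :=
  ⟨Subrelation.wf (fun {a b} (h : a < b) => hf h) (InvImage.wf f (wellFounded_lt (α := β)))⟩

/-- A line with a height function. -/
structure Line (W L : Type) [LinearOrder W] [LinearOrder L] (ht : L → W) : Prop where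
  core : ∀ X : W → Set L, (∀ a b, a ≤ b → X b ⊆ X a) → (∀ a, (X a).Nonempty) →
    (∀ a, ∀ x ∈ X a, a ≤ ht x) → ∃ g : L → L, StrictMono g ∧ ∀ q, g q ∈ X (ht q)
  high : ∀ q q', q < q' → ∀ η, ∃ s, q < s ∧ s < q' ∧ η ≤ ht s
  noω : ∀ (V : Type) [LinearOrder V] [Om V] (f : V → L), StrictMono f → False
  nt : ∃ q q' : L, q < q'

section

variable {W L Φ : Type} [LinearOrder W] [Om W] [LinearOrder L] [LinearOrder Φ] {ht : L → W}
  {κ : W → Cardinal.{0}} {cl : Φ → L}

/-- `Φ` is a sum along `L` of well orders of cardinality `κ (ht q)`. -/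
structure Fib (ht : L → W) (κ : W → Cardinal.{0}) (cl : Φ → L) : Prop where
  mono : Monotone cl
  wf : ∀ q, WellFoundedLT {x // cl x = q}
  card : ∀ q, #{x // cl x = q} = κ (ht q)

theorem lt_of_cl_lt (hm : Monotone cl) {x y : Φ} (h : cl x < cl y) : x < y := by
  by_contra hc
  exact absurd (hm (not_lt.mp hc)) (not_le.mpr h)

theorem sc_mono {a b : W} (h : a ≤ b) : sc a ≤ sc b := sc_le (h.trans_lt (lt_sc b))

/-- The general embedding lemma. -/
theorem embed_of_large (hL : Line W L ht) (hκ : StrictMono κ) (hF : Fib ht κ cl)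
    {Ψ : Type} [LinearOrder Ψ] (cl' : Ψ → L) (hm' : Monotone cl')
    (hwf' : ∀ q, WellFoundedLT {x // cl' x = q}) (hc' : ∀ q, #{x // cl' x = q} ≤ κ (ht q))
    (A : Set Φ) (hA : ∀ ξ, ∃ q, κ ξ ≤ #{x : Φ // x ∈ A ∧ cl x = q}) : Nonempty (Ψ ↪o A) := by
  obtain ⟨g, hg1, hg2⟩ := hL.core (fun ξ => {q | κ (sc ξ) ≤ #{x : Φ // x ∈ A ∧ cl x = q}})
    (fun a b hab q hq => (hκ.monotone (sc_mono hab)).trans hq) (fun a => hA (sc a)) (by
      intro a q hq
      have h1 : #{x : Φ // x ∈ A ∧ cl x = q} ≤ #{x : Φ // cl x = q} :=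
        Cardinal.mk_subtype_mono fun x hx => hx.2
      rw [hF.card q] at h1
      exact (lt_sc a).le.trans (hκ.le_iff_le.mp (le_trans hq h1)))
  have hi : ∀ q, Nonempty ({x // cl' x = q} ↪o {x : Φ // x ∈ A ∧ cl x = g q}) := by
    intro q
    have := hwf' q
    have := hF.wf (g q)
    have hw : WellFoundedLT {x : Φ // x ∈ A ∧ cl x = g q} :=
      wf_of_strictMono (β := {x // cl x = g q}) (f := fun x => ⟨x.1, x.2.2⟩) fun x y h => h
    exact wo_embed (((hc' q).trans_lt (hκ (lt_sc (ht q)))).trans_le (hg2 q))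
  have i := fun q => (hi q).some
  have hcl : ∀ x : Ψ, cl (i (cl' x) ⟨x, rfl⟩).1 = g (cl' x) := fun x =>
    (i (cl' x) ⟨x, rfl⟩).2.2
  refine ⟨OrderEmbedding.ofStrictMono (fun x => ⟨(i (cl' x) ⟨x, rfl⟩).1,
    (i (cl' x) ⟨x, rfl⟩).2.1⟩) fun x y hxy => ?_⟩
  change (i (cl' x) ⟨x, rfl⟩).1 < (i (cl' y) ⟨y, rfl⟩).1
  rcases (hm' hxy.le).eq_or_lt with h | h
  · have h1 : ∀ (q : L) (hq : cl' y = q), (i (cl' y) ⟨y, rfl⟩).1 = (i q ⟨y, hq⟩).1 := by
      intro q hq
      subst hq
      rfl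
    rw [h1 (cl' x) h.symm]
    have h2 : (⟨x, rfl⟩ : {z // cl' z = cl' x}) < ⟨y, h.symm⟩ := hxy
    exact (i (cl' x)).strictMono h2
  · apply lt_of_cl_lt hF.mono
    rw [hcl x, hcl y]
    exact hg1 h

/-- Intervals which meet several classes are large. -/
theorem crossing (hL : Line W L ht) (hκ : StrictMono κ) (hF : Fib ht κ cl)
    {Ψ : Type} [LinearOrder Ψ] (cl' : Ψ → L) (hm' : Monotone cl')
    (hwf' : ∀ q, WellFoundedLT {x // cl' x = q}) (hc' : ∀ q, #{x // cl' x = q} ≤ κ (ht q))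
    {a b : Φ} (hab : cl a < cl b) : Nonempty (Ψ ↪o Set.Ioo a b) := by
  refine embed_of_large hL hκ hF cl' hm' hwf' hc' _ fun ξ => ?_
  obtain ⟨s, h1, h2, h3⟩ := hL.high _ _ hab ξ
  refine ⟨s, (hκ.monotone h3).trans ?_⟩
  rw [← hF.card s]
  refine Cardinal.mk_subtype_mono fun x hx => ⟨⟨?_, ?_⟩, hx⟩
  · exact lt_of_cl_lt hF.mono (by rw [hx]; exact h1)
  · exact lt_of_cl_lt hF.mono (by rw [hx]; exact h2)

/-- Well ordered subsets of `L` are countable. -/
theorem wf_countable (hL : Line W L ht) (S : Set L) [hS : WellFoundedLT S] : S.Countable := by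
  by_contra hc
  let V : Set S := {x | (Set.Iio x).Countable}
  have hV : ¬ V.Countable := by
    intro hV
    by_cases hall : ∀ x : S, x ∈ V
    · apply hc
      have h1 : (Set.univ : Set S).Countable := hV.mono fun x _ => hall x
      rw [Set.countable_univ_iff] at h1
      exact Set.countable_coe_iff.mp h1
    · push Not at hall
      have hne : (Vᶜ).Nonempty := hall
      have hmem := wellFounded_lt.min_mem _ hne
      apply hmem
      refine hV.mono fun y hy => ?_
      by_contra hy'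
      exact wellFounded_lt.not_lt_min Vᶜ hy' hy
  have hwV : WellFoundedLT V := wf_of_strictMono (β := S) (f := fun x : V => x.1) fun x y h => h
  have hOm : Om V :=
    { hwV with
      cnt := fun a => by
        have h1 : (Set.Iio a.1).Countable := a.2
        exact (h1.preimage_of_injOn (f := fun x : V => x.1)
          (Subtype.val_injective.injOn)).mono fun x hx => hx
      unc := fun h => hV (by
        rw [Set.countable_univ_iff] at h
        exact Set.countable_coe_iff.mp h) }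
  exact hL.noω V (fun x => x.1.1) fun x y h => h

/-- Well ordered subsets of `Φ` meet countably many classes. -/
theorem wf_image_countable (hL : Line W L ht) (hm : Monotone cl) (S : Set Φ) [WellFoundedLT S] :
    (cl '' S).Countable := by
  have hex : ∀ q : cl '' S, ∃ x : S, cl x = q := by
    rintro ⟨_, x, hx, rfl⟩
    exact ⟨⟨x, hx⟩, rfl⟩
  choose σ hσ using hex
  have : WellFoundedLT (cl '' S) := wf_of_strictMono (f := σ) fun q q' h => by
    have h1 : cl (σ q) < cl (σ q') := by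
      rw [hσ, hσ]
      exact h
    exact lt_of_cl_lt hm h1
  exact wf_countable hL _

theorem card_le_of_wf (hL : Line W L ht) (hF : Fib ht κ cl) (hκ1 : ∀ ξ, ℵ₀ ≤ κ ξ) {A : Set Φ}
    {ξ₀ : W} (hA : ∀ q, #{x : Φ // x ∈ A ∧ cl x = q} < κ ξ₀) (S : Set Φ) (hS : S ⊆ A)
    [WellFoundedLT S] : #S ≤ κ ξ₀ := by
  have h1 := wf_image_countable hL hF.mono S
  have h2 : #S ≤ #(cl '' S) * κ ξ₀ := by
    refine Cardinal.mk_le_mk_mul_of_mk_preimage_le (fun x : S => (⟨cl x.1, x.1, x.2, rfl⟩ :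
      cl '' S)) fun q => ?_
    refine le_trans ?_ (hA q.1).le
    have hx : ∀ x : ((fun x : S => (⟨cl x.1, x.1, x.2, rfl⟩ : cl '' S)) ⁻¹' {q}),
        cl x.1.1 = q.1 := fun x => congrArg Subtype.val x.2
    refine Cardinal.mk_le_of_injective
      (f := fun x => (⟨x.1.1, hS x.1.2, hx x⟩ : {x : Φ // x ∈ A ∧ cl x = q.1})) fun x y h => ?_
    exact Subtype.ext (Subtype.ext (Subtype.mk.inj h))
  refine h2.trans ?_
  calc #(cl '' S) * κ ξ₀ ≤ κ ξ₀ * κ ξ₀ := by
        refine mul_le_mul' ?_ le_rfl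
        exact (Cardinal.le_aleph0_iff_set_countable.mpr h1).trans (hκ1 ξ₀)
    _ = κ ξ₀ := Cardinal.mul_eq_self (hκ1 ξ₀)

/-- `Φ` is untranscendable. -/
theorem untrans (hL : Line W L ht) (hκ : StrictMono κ) (hκ1 : ∀ ξ, ℵ₀ ≤ κ ξ) (hF : Fib ht κ cl)
    (A B : Set Φ) (f : Φ ↪o (B ×ₗ A)) : Nonempty (Φ ↪o A) ∨ Nonempty (Φ ↪o B) := by
  by_cases hA : Nonempty (Φ ↪o A)
  · exact Or.inl hA
  right
  have hself := embed_of_large hL hκ hF cl hF.mono hF.wf (fun q => (hF.card q).le)
  obtain ⟨ξ₀, hξ₀⟩ : ∃ ξ₀, ∀ q, #{x : Φ // x ∈ A ∧ cl x = q} < κ ξ₀ := by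
    by_contra hc
    push Not at hc
    exact hA (hself A hc)
  let f1 : Φ → B := fun x => (ofLex (f x)).1
  let f2 : Φ → A := fun x => (ofLex (f x)).2
  have hf1 : Monotone f1 := fun x y h =>
    Prod.Lex.monotone_fst_ofLex (f.monotone h)
  have hf2 : ∀ x y, f1 x = f1 y → x < y → f2 x < f2 y := by
    intro x y h hxy
    have h1 := f.strictMono hxy
    rw [Prod.Lex.lt_iff] at h1
    rcases h1 with h1 | h1
    · exact absurd h (ne_of_lt h1)
    · exact h1.2
  -- fibres of `f1` are contained in classes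
  have hcls : ∀ x y, f1 x = f1 y → x < y → cl x = cl y := by
    intro x y h hxy
    rcases (hF.mono hxy.le).eq_or_lt with h1 | h1
    · exact h1
    · exfalso
      obtain ⟨g⟩ := crossing hL hκ hF cl hF.mono hF.wf (fun q => (hF.card q).le) h1
      apply hA
      have hg : ∀ z, f1 (g z).1 = f1 x := fun z =>
        le_antisymm ((hf1 (g z).2.2.le).trans h.symm.le) (hf1 (g z).2.1.le)
      refine ⟨OrderEmbedding.ofStrictMono (fun z => f2 (g z).1) fun z z' hzz => ?_⟩
      refine hf2 _ _ (by rw [hg z, hg z']) ?_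
      exact g.strictMono hzz
  have hcls' : ∀ x y, f1 x = f1 y → cl x = cl y := by
    intro x y h
    rcases lt_trichotomy x y with h1 | h1 | h1
    · exact hcls x y h h1
    · rw [h1]
    · exact (hcls y x h.symm h1).symm
  -- fibres of `f1` are small
  have hfib : ∀ b, #{x : Φ // f1 x = b} ≤ κ ξ₀ := by
    intro b
    by_cases hne : Nonempty {x : Φ // f1 x = b}
    · obtain ⟨x0, hx0⟩ := hne
      have := hF.wf (cl x0)
      have hwb : WellFoundedLT {x : Φ // f1 x = b} :=
        wf_of_strictMono (β := {x // cl x = cl x0})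
          (f := fun x => ⟨x.1, hcls' x.1 x0 (by rw [x.2, hx0])⟩) fun x y h => h
      have hmono2 : StrictMono fun x : {x : Φ // f1 x = b} => (f2 x.1).1 := fun x y h =>
        hf2 x.1 y.1 (by rw [x.2, y.2]) h
      have hws : WellFoundedLT (Set.range fun x : {x : Φ // f1 x = b} => (f2 x.1).1) := by
        have hex : ∀ y : Set.range (fun x : {x : Φ // f1 x = b} => (f2 x.1).1),
            ∃ x : {x : Φ // f1 x = b}, (f2 x.1).1 = y.1 := by
          rintro ⟨_, x, rfl⟩
          exact ⟨x, rfl⟩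
        choose σ hσ using hex
        refine wf_of_strictMono (f := σ) fun y y' h => ?_
        rw [← hmono2.lt_iff_lt]
        change (f2 (σ y).1).1 < (f2 (σ y').1).1
        rw [hσ y, hσ y']
        exact h
      have h1 := card_le_of_wf hL hF hκ1 hξ₀
        (Set.range fun x : {x : Φ // f1 x = b} => (f2 x.1).1) (by
          rintro _ ⟨x, rfl⟩
          exact (f2 x.1).2)
      rwa [Cardinal.mk_range_eq _ hmono2.injective] at h1
    · rw [not_nonempty_iff] at hne
      rw [Cardinal.mk_eq_zero]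
      exact zero_le
  -- a section
  have hsec : ∃ s : B → Φ, ∀ x, f1 (s (f1 x)) = f1 x := by
    classical
    obtain ⟨q, -⟩ := hL.nt
    have hne : Nonempty Φ := by
      have h1 : #{x // cl x = q} ≠ 0 := by
        rw [hF.card q]
        exact (Cardinal.aleph0_pos.trans_le (hκ1 _)).ne'
      obtain ⟨x⟩ := Cardinal.mk_ne_zero_iff.mp h1
      exact ⟨x.1⟩
    refine ⟨fun b => if h : ∃ x, f1 x = b then h.choose else hne.some, fun x => ?_⟩
    have h : ∃ y, f1 y = f1 x := ⟨x, rfl⟩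
    simp only [dif_pos h]
    exact h.choose_spec
  obtain ⟨s, hs⟩ := hsec
  obtain ⟨g⟩ := hself {x | s (f1 x) = x} (by
    intro ξ
    obtain ⟨q0, q1, hq01⟩ := hL.nt
    obtain ⟨q, -, -, hq⟩ := hL.high q0 q1 hq01 (max ξ (sc ξ₀))
    refine ⟨q, (hκ.monotone ((le_max_left _ _).trans hq)).trans ?_⟩
    rw [← hF.card q]
    by_contra hc
    have hlt := not_le.mp hc
    have h1 : #{x : Φ // cl x = q} ≤ #{x : Φ // x ∈ {x | s (f1 x) = x} ∧ cl x = q} * κ ξ₀ := by
      refine Cardinal.mk_le_mk_mul_of_mk_preimage_le (fun x => ⟨s (f1 x.1), ?_, ?_⟩) fun y => ?_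
      · change s (f1 (s (f1 x.1))) = s (f1 x.1)
        rw [hs]
      · exact (hcls' _ _ (hs x.1)).trans x.2
      · refine le_trans ?_ (hfib (f1 y.1))
        refine Cardinal.mk_le_of_injective (β := {x : Φ // f1 x = f1 y.1})
          (f := fun x => ⟨x.1.1, ?_⟩) fun x y h =>
          Subtype.ext (Subtype.ext (Subtype.mk.inj h))
        have h2 : s (f1 x.1.1) = y.1 := congrArg Subtype.val x.2
        rw [← h2, hs]
    have h2 : κ ξ₀ < #{x : Φ // cl x = q} := by
      rw [hF.card q]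
      exact hκ ((lt_sc ξ₀).trans_le ((le_max_right _ _).trans hq))
    have h3 : ℵ₀ ≤ #{x : Φ // cl x = q} := by
      rw [hF.card q]
      exact hκ1 _
    exact absurd h1 (not_le.mpr (Cardinal.mul_lt_of_lt h3 hlt h2)))
  refine ⟨OrderEmbedding.ofStrictMono (fun z => f1 (g z).1) fun z z' hzz => ?_⟩
  have h1 : (g z).1 < (g z').1 := g.strictMono hzz
  refine lt_of_le_of_ne (hf1 h1.le) fun h => ?_
  have h2 : s (f1 (g z).1) = (g z).1 := (g z).2
  have h3 : s (f1 (g z').1) = (g z').1 := (g z').2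
  have h' : f1 (g z).1 = f1 (g z').1 := h
  rw [← h2, ← h3, h'] at h1
  exact lt_irrefl _ h1

end

end Pool.Agent.W_MP_6cb7ce_lc_h1
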