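import Mathlib

/-!
Well orders of type `ω₁` and coherent sequences of finite-to-one functions.
-/

namespace Pool.Agent.W_MP_6cb7ce_lc_h1

/-- `W` is a well order of type `ω₁`: it is uncountable and all proper initial segments are
countable. -/
class Om (W : Type) [LinearOrder W] : Prop extends WellFoundedLT W where
  cnt : ∀ a : W, (Set.Iio a).Countable
  unc : ¬ (Set.univ : Set W).Countable

section

variable {W : Type} [LinearOrder W] [Om W]

theorem Iic_countable (a : W) : (Set.Iic a).Countable := by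
  have : Set.Iic a = insert a (Set.Iio a) := by
    ext x; simp [le_iff_eq_or_lt]
  rw [this]
  exact (Om.cnt a).insert a

theorem exists_ub_of_countable {s : Set W} (hs : s.Countable) : ∃ b, ∀ a ∈ s, a < b := by
  by_contra h
  push Not at h
  apply Om.unc (W := W)
  refine Set.Countable.mono ?_ (hs.biUnion fun a _ => Iic_countable a)
  intro b _
  obtain ⟨a, ha, hab⟩ := h b
  simp only [Set.mem_iUnion]
  exact ⟨a, ha, hab⟩

instance : Nonempty W := by
  obtain ⟨b, -⟩ := exists_ub_of_countable (W := W) (s := ∅) Set.countable_empty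
  exact ⟨b⟩

instance : NoMaxOrder W where
  exists_gt a := by
    obtain ⟨b, hb⟩ := exists_ub_of_countable (Set.countable_singleton a)
    exact ⟨b, hb a rfl⟩

/-- The successor function of `W`. -/
noncomputable def sc (a : W) : W := wellFounded_lt.min (Set.Ioi a) (exists_gt a)

theorem lt_sc (a : W) : a < sc a := wellFounded_lt.min_mem (Set.Ioi a) (exists_gt a)

theorem sc_le {a b : W} (h : a < b) : sc a ≤ b := by
  by_contra hc
  exact wellFounded_lt.not_lt_min (Set.Ioi a) h (not_le.mp hc)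

theorem lt_sc_iff {a b : W} : a < sc b ↔ a ≤ b := by
  constructor
  · intro h
    by_contra hc
    exact absurd (sc_le (not_le.mp hc)) (not_le.mpr h)
  · intro h
    exact lt_of_le_of_lt h (lt_sc b)

/-- The least element of `W`. -/
noncomputable def bt : W := wellFounded_lt.min (Set.univ : Set W) Set.univ_nonempty

theorem bt_le (a : W) : bt ≤ a := by
  by_contra hc
  exact wellFounded_lt.not_lt_min (Set.univ : Set W) (Set.mem_univ a) (not_le.mp hc)

theorem not_lt_bt (a : W) : ¬ a < bt := not_lt.mpr (bt_le a)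

/-- Pigeonhole principle. -/
theorem pigeon {α : Type*} {S : Set α} (hS : S.Countable) (f : W → α) (hf : ∀ a, f a ∈ S) :
    ∃ y ∈ S, ∀ a, ∃ b, a ≤ b ∧ f b = y := by
  by_contra h
  push Not at h
  choose! g hg using h
  obtain ⟨b, hb⟩ := exists_ub_of_countable (hS.image g)
  exact hg (f b) (hf b) b (hb _ ⟨f b, hf b, rfl⟩).le rfl

/-- Pigeonhole principle for relations that are antitone in the first argument. -/
theorem pigeon_rel {α : Type*} {S : Set α} (hS : S.Countable) (R : W → α → Prop)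
    (hanti : ∀ a b y, a ≤ b → R b y → R a y) (hR : ∀ a, ∃ y ∈ S, R a y) :
    ∃ y ∈ S, ∀ a, R a y := by
  choose f hf hfR using hR
  obtain ⟨y, hy, h⟩ := pigeon hS f hf
  refine ⟨y, hy, fun a => ?_⟩
  obtain ⟨b, hab, hb⟩ := h a
  exact hanti a b y hab (hb ▸ hfR b)

/-- A countable family of elements has a strict upper bound. -/
theorem exists_ub_range {ι : Type*} [Countable ι] (f : ι → W) : ∃ b, ∀ i, f i < b := by
  obtain ⟨b, hb⟩ := exists_ub_of_countable (Set.countable_range f)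
  exact ⟨b, fun i => hb _ ⟨i, rfl⟩⟩

/-- One step of the construction of the coherent sequence. -/
theorem coherent_step (δ : W) (e : W → W → ℕ)
    (h1 : ∀ γ, γ < δ → ∀ n, {ξ | ξ < γ ∧ e γ ξ ≤ n}.Finite)
    (h2 : ∀ γ γ', γ < δ → γ' < δ → γ ≤ γ' → {ξ | ξ < γ ∧ e γ ξ ≠ e γ' ξ}.Finite) :
    ∃ h : W → ℕ, (∀ n, {ξ | ξ < δ ∧ h ξ ≤ n}.Finite) ∧
      ∀ γ, γ < δ → {ξ | ξ < γ ∧ e γ ξ ≠ h ξ}.Finite := by
  classical
  rcases (Set.Iio δ).eq_empty_or_nonempty with he | hne
  · have hno : ∀ γ, ¬ γ < δ := fun γ hγ => by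
      have : γ ∈ Set.Iio δ := hγ
      rw [he] at this
      exact this
    refine ⟨fun _ => 0, fun n => ?_, fun γ hγ => absurd hγ (hno γ)⟩
    refine Set.Finite.subset Set.finite_empty ?_
    rintro ξ ⟨hξ, -⟩
    exact absurd hξ (hno ξ)
  obtain ⟨g, hg⟩ := (Om.cnt δ).exists_eq_range hne
  have hglt : ∀ n, g n < δ := fun n => by
    have : g n ∈ Set.Iio δ := hg ▸ ⟨n, rfl⟩
    exact this
  have hex : ∀ ξ, ξ < δ → ∃ n, ξ ≤ g n := fun ξ hξ => by
    have : ξ ∈ Set.range g := hg ▸ hξ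
    obtain ⟨n, rfl⟩ := this
    exact ⟨n, le_rfl⟩
  let N : W → ℕ := fun ξ => if h : ∃ n, ξ ≤ g n then Nat.find h else 0
  have hN1 : ∀ ξ, ξ < δ → ξ ≤ g (N ξ) := fun ξ hξ => by
    have h := hex ξ hξ
    simp only [N, dif_pos h]
    exact Nat.find_spec h
  have hN2 : ∀ ξ n, ξ ≤ g n → N ξ ≤ n := fun ξ n h' => by
    have h : ∃ n, ξ ≤ g n := ⟨n, h'⟩
    simp only [N, dif_pos h]
    exact Nat.find_min' h h'
  refine ⟨fun ξ => max (e (g (N ξ)) ξ) (N ξ), fun k => ?_, fun γ hγ => ?_⟩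
  · refine Set.Finite.subset (Set.Finite.union
      (Set.Finite.biUnion (Set.finite_Iic k) fun n _ => h1 (g n) (hglt n) k)
      ((Set.finite_Iic k).image g)) ?_
    rintro ξ ⟨hξ, hk⟩
    have hk1 : e (g (N ξ)) ξ ≤ k := le_trans (le_max_left _ _) hk
    have hk2 : N ξ ≤ k := le_trans (le_max_right _ _) hk
    rcases (hN1 ξ hξ).eq_or_lt with h | h
    · right
      exact ⟨N ξ, hk2, h.symm⟩
    · left
      simp only [Set.mem_iUnion]
      exact ⟨N ξ, hk2, h, hk1⟩
  · have hγr : γ ∈ Set.range g := hg ▸ hγ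
    obtain ⟨m, rfl⟩ := hγr
    have hD : ∀ n, {ξ | ξ < g n ∧ ξ < g m ∧ e (g n) ξ ≠ e (g m) ξ}.Finite := fun n => by
      rcases le_total (g n) (g m) with h | h
      · refine Set.Finite.subset (h2 (g n) (g m) (hglt n) (hglt m) h) ?_
        rintro ξ ⟨ha, -, hb⟩
        exact ⟨ha, hb⟩
      · refine Set.Finite.subset (h2 (g m) (g n) (hglt m) (hglt n) h) ?_
        rintro ξ ⟨-, ha, hb⟩
        exact ⟨ha, Ne.symm hb⟩
    refine Set.Finite.subset (Set.Finite.union (Set.Finite.union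
      (Set.Finite.biUnion (Set.finite_Iic m) fun n _ => h1 (g n) (hglt n) n)
      ((Set.finite_Iic m).image g))
      (Set.Finite.biUnion (Set.finite_Iic m) fun n _ => hD n)) ?_
    rintro ξ ⟨hξ, hne'⟩
    have hk2 : N ξ ≤ m := hN2 ξ m hξ.le
    by_cases hξg : ξ = g (N ξ)
    · left; right
      exact ⟨N ξ, hk2, hξg.symm⟩
    have hlt : ξ < g (N ξ) := lt_of_le_of_ne (hN1 ξ (hξ.trans (hglt m))) hξg
    by_cases hle : e (g (N ξ)) ξ ≤ N ξ
    · left; left
      simp only [Set.mem_iUnion]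
      exact ⟨N ξ, hk2, hlt, hle⟩
    · right
      simp only [Set.mem_iUnion]
      refine ⟨N ξ, hk2, hlt, hξ, ?_⟩
      have hne2 : e (g m) ξ ≠ max (e (g (N ξ)) ξ) (N ξ) := hne'
      rw [max_eq_left (not_le.mp hle).le] at hne2
      exact Ne.symm hne2

/-- Coherent sequence of finite-to-one functions. -/
theorem exists_coherent : ∃ e : W → W → ℕ,
    (∀ δ n, {ξ | ξ < δ ∧ e δ ξ ≤ n}.Finite) ∧
    ∀ γ δ, γ ≤ δ → {ξ | ξ < γ ∧ e γ ξ ≠ e δ ξ}.Finite := by
  classical
  let Q : (δ : W) → (e : W → W → ℕ) → (W → ℕ) → Prop := fun δ e h =>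
    (∀ n, {ξ | ξ < δ ∧ h ξ ≤ n}.Finite) ∧ ∀ γ, γ < δ → {ξ | ξ < γ ∧ e γ ξ ≠ h ξ}.Finite
  let F : (δ : W) → ((y : W) → y < δ → (W → ℕ)) → (W → ℕ) := fun δ rec =>
    if h : ∃ h, Q δ (fun γ => if hγ : γ < δ then rec γ hγ else 0) h then h.choose else 0
  let e : W → W → ℕ := (wellFounded_lt (α := W)).fix F
  have he : ∀ δ, e δ = if h : ∃ h, Q δ (fun γ => if γ < δ then e γ else 0) h
      then h.choose else 0 := fun δ => by
    have := (wellFounded_lt (α := W)).fix_eq F δ
    exact this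
  have key : ∀ δ, Q δ e (e δ) := by
    intro δ
    induction δ using (wellFounded_lt (α := W)).induction with
    | _ δ ih =>
      have hex : ∃ h, Q δ (fun γ => if γ < δ then e γ else 0) h := by
        refine coherent_step δ _ ?_ ?_
        · intro γ hγ n
          rw [if_pos hγ]
          exact (ih γ hγ).1 n
        · intro γ γ' hγ hγ' hle
          rw [if_pos hγ, if_pos hγ']
          rcases hle.eq_or_lt with rfl | hlt
          · refine Set.Finite.subset Set.finite_empty ?_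
            rintro ξ ⟨-, h⟩
            exact absurd rfl h
          · exact (ih γ' hγ').2 γ hlt
      have h3 : Q δ (fun γ => if γ < δ then e γ else 0) (e δ) := by
        rw [he δ, dif_pos hex]
        exact hex.choose_spec
      refine ⟨h3.1, fun γ hγ => ?_⟩
      have h4 := h3.2 γ hγ
      simp only [if_pos hγ] at h4
      exact h4
  refine ⟨e, fun δ n => (key δ).1 n, fun γ δ hle => ?_⟩
  rcases hle.eq_or_lt with rfl | hlt
  · refine Set.Finite.subset Set.finite_empty ?_
    rintro ξ ⟨-, h⟩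
    exact absurd rfl h
  · exact (key δ).2 γ hlt

end

end Pool.Agent.W_MP_6cb7ce_lc_h1
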