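import Pool.Agent.W_MP_6cb7ce_lc_h1.Props
import Pool.Agent.W_MP_6cb7ce_lc_h1.Core

/-!
The concrete order type.
-/

set_option linter.unusedSectionVars false

open Cardinal

namespace Pool.Agent.W_MP_6cb7ce_lc_h1

/-- The well order `ω₁`. -/
abbrev W1 : Type := (Cardinal.aleph 1).ord.ToType

theorem mk_W1 : #W1 = ℵ₁ := Cardinal.mk_ord_toType _

instance : Om W1 where
  cnt a := by
    rw [← Cardinal.le_aleph0_iff_set_countable, ← Order.lt_succ_iff, Cardinal.succ_aleph0]
    exact Cardinal.mk_Iio_toType_ord_lt a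
  unc h := by
    rw [← Cardinal.le_aleph0_iff_set_countable, ← Order.lt_succ_iff, Cardinal.succ_aleph0,
      Cardinal.mk_univ, mk_W1] at h
    exact lt_irrefl _ h

/-- The cardinalities of the classes. -/
noncomputable def kap (ξ : W1) : Cardinal.{0} := aleph (2 + Ordinal.typein (α := W1) (· < ·) ξ)

theorem kap_mono : StrictMono kap := fun a b h => by
  apply Cardinal.aleph_lt_aleph.mpr
  exact (add_lt_add_iff_left _).mpr ((Ordinal.typein_lt_typein (α := W1) (· < ·)).mpr h)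

theorem kap_gt (ξ : W1) : #W1 < kap ξ := by
  rw [mk_W1]
  apply Cardinal.aleph_lt_aleph.mpr
  exact lt_of_lt_of_le (by norm_num) (le_self_add (a := (2 : Ordinal)))

theorem kap_ge (ξ : W1) : ℵ₀ ≤ kap ξ := Cardinal.aleph0_le_aleph _

variable {c : Coh W1}

theorem line_L (hMA : MartinsAxiomAlephOne) (c : Coh W1) :
    Line W1 (L c) (ht (c := c)) where
  core X h1 h2 h3 := core hMA mk_W1.le X h1 h2 h3
  high q q' h η := by
    obtain ⟨θ, h1, s, hs, h2, h3⟩ := exists_between_high (ht_spec q) (ht_spec q') h η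
    exact ⟨⟨s, θ, hs⟩, h2, h3, by rw [ht_eq (q := ⟨s, θ, hs⟩) hs]; exact h1⟩
  noω V _ _ f hf := no_omega1 (fun v => (f v).1) (fun a b h => hf h) (fun a => (f a).2)
  nt := by
    refine ⟨⟨_, bt, glue_canon bt⟩, ⟨_, sc bt, glue_canon (sc bt)⟩, ?_⟩
    rw [L_lt_iff]
    refine F_lt_iff.mpr ⟨bt, fun j hj => absurd hj (not_lt_bt j), ?_⟩
    change glue c bt bt 0 bt < glue c (sc bt) bt 0 bt
    rw [glue_ge le_rfl le_rfl, glue_mid le_rfl (lt_sc bt)]
    positivity

/-- The order type. -/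
abbrev Phi (c : Coh W1) : Type := Σₗ q : L c, (kap (ht q)).ord.ToType

/-- The class of a point. -/
def clP (c : Coh W1) (x : Phi c) : L c := (ofLex x).1

theorem fib_Phi (c : Coh W1) : Fib (ht (c := c)) kap (clP c) where
  mono x y h := by
    rcases (Sigma.Lex.le_def.mp h) with h | ⟨h, -⟩
    · exact h.le
    · exact h.le
  wf q := by
    refine wf_of_strictMono (β := (kap (ht q)).ord.ToType)
      (f := fun x => Equiv.sigmaSubtype q ⟨ofLex x.1, x.2⟩) ?_
    rintro ⟨⟨q1, x⟩, hx⟩ ⟨⟨q2, y⟩, hy⟩ h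
    change q1 = q at hx
    change q2 = q at hy
    subst hx
    subst hy
    have h1 := Sigma.Lex.lt_def.mp h
    rcases h1 with h1 | ⟨h1, h2⟩
    · exact absurd h1 (lt_irrefl _)
    · exact h2
  card q := by
    have h1 : #{x // clP c x = q} = #((kap (ht q)).ord.ToType) :=
      Cardinal.mk_congr (Equiv.sigmaSubtype (β := fun q : L c => (kap (ht q)).ord.ToType) q)
    rw [h1, Cardinal.mk_ord_toType]

end Pool.Agent.W_MP_6cb7ce_lc_h1
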