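import Pool.Agent.W_MP_6cb7ce_lc_h1.Fib

/-!
Further properties of lexicographic sums of well orders along a homogeneous line.
-/

set_option linter.unusedSectionVars false

open Cardinal

namespace Pool.Agent.W_MP_6cb7ce_lc_h1

section

variable {W L Φ : Type} [LinearOrder W] [Om W] [LinearOrder L] [LinearOrder Φ] {ht : L → W}
  {κ : W → Cardinal.{0}} {cl : Φ → L}

theorem exists_cl (hκ1 : ∀ ξ, ℵ₀ ≤ κ ξ) (hF : Fib ht κ cl) (q : L) : ∃ x, cl x = q := by
  have h1 : #{x // cl x = q} ≠ 0 := by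
    rw [hF.card q]
    exact (Cardinal.aleph0_pos.trans_le (hκ1 _)).ne'
  obtain ⟨x⟩ := Cardinal.mk_ne_zero_iff.mp h1
  exact ⟨x.1, x.2⟩

/-- Two copies. -/
theorem two_copies (hL : Line W L ht) (hκ : StrictMono κ) (hκ1 : ∀ ξ, ℵ₀ ≤ κ ξ)
    (hF : Fib ht κ cl) : Nonempty ((Fin 2 ×ₗ Φ) ↪o Φ) := by
  classical
  obtain ⟨q0, q1, h01⟩ := hL.nt
  obtain ⟨s, hs0, hs1, -⟩ := hL.high q0 q1 h01 bt
  obtain ⟨x0, rfl⟩ := exists_cl hκ1 hF q0
  obtain ⟨x1, rfl⟩ := exists_cl hκ1 hF q1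
  obtain ⟨y, rfl⟩ := exists_cl hκ1 hF s
  obtain ⟨g0⟩ := crossing hL hκ hF cl hF.mono hF.wf (fun q => (hF.card q).le) hs0
  obtain ⟨g1⟩ := crossing hL hκ hF cl hF.mono hF.wf (fun q => (hF.card q).le) hs1
  refine ⟨OrderEmbedding.ofStrictMono
    (fun p => if (ofLex p).1 = 0 then (g0 (ofLex p).2).1 else (g1 (ofLex p).2).1) ?_⟩
  intro p p' hpp
  rw [Prod.Lex.lt_iff] at hpp
  change (if (ofLex p).1 = 0 then (g0 (ofLex p).2).1 else (g1 (ofLex p).2).1) <
    (if (ofLex p').1 = 0 then (g0 (ofLex p').2).1 else (g1 (ofLex p').2).1)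
  have hfin : ∀ i : Fin 2, i = 0 ∨ i = 1 := by decide
  rcases hpp with h | ⟨h, h'⟩
  · have h2 : (ofLex p).1 = 0 := by
      rcases hfin (ofLex p).1 with h3 | h3
      · exact h3
      · rcases hfin (ofLex p').1 with h4 | h4
        · rw [h3, h4] at h
          exact absurd h (by decide)
        · rw [h3, h4] at h
          exact absurd h (by decide)
    have h3 : (ofLex p').1 ≠ 0 := by
      intro h4
      rw [h2, h4] at h
      exact absurd h (by decide)
    rw [if_pos h2, if_neg h3]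
    exact (g0 _).2.2.trans (g1 _).2.1
  · rw [← h]
    split_ifs with h5
    · exact g0.strictMono h'
    · exact g1.strictMono h'

/-- Doubling the points. -/
theorem double_points (hL : Line W L ht) (hκ : StrictMono κ) (hκ1 : ∀ ξ, ℵ₀ ≤ κ ξ)
    (hF : Fib ht κ cl) : Nonempty ((Φ ×ₗ Fin 2) ↪o Φ) := by
  obtain ⟨g⟩ := embed_of_large hL hκ hF (Ψ := Φ ×ₗ Fin 2) (fun p => cl (ofLex p).1)
    (fun p p' h => hF.mono (Prod.Lex.monotone_fst_ofLex h)) (by
      intro q
      have := hF.wf q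
      refine wf_of_strictMono (β := {x // cl x = q} ×ₗ Fin 2)
        (f := fun p => toLex (⟨(ofLex p.1).1, p.2⟩, (ofLex p.1).2)) fun p p' h => ?_
      have h1 : p.1 < p'.1 := h
      rw [Prod.Lex.lt_iff] at h1 ⊢
      rcases h1 with h1 | ⟨h1, h2⟩
      · exact Or.inl h1
      · exact Or.inr ⟨Subtype.ext h1, h2⟩) (by
      intro q
      have h1 : #{p : Φ ×ₗ Fin 2 // cl (ofLex p).1 = q} ≤ #({x // cl x = q} × Fin 2) :=
        Cardinal.mk_le_of_injective
          (f := fun p => ((⟨(ofLex p.1).1, p.2⟩, (ofLex p.1).2) : {x // cl x = q} × Fin 2))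
          fun p p' h => by
            have h1 := congrArg (fun z : {x // cl x = q} × Fin 2 => (z.1.1, z.2)) h
            exact Subtype.ext h1
      refine h1.trans ?_
      rw [Cardinal.mk_prod, Cardinal.lift_id, Cardinal.lift_id, hF.card q]
      refine (mul_le_mul' le_rfl ?_).trans (Cardinal.mul_eq_self (hκ1 _)).le
      exact (Cardinal.mk_le_aleph0).trans (hκ1 _)) Set.univ (by
      intro ξ
      obtain ⟨q0, q1, h01⟩ := hL.nt
      obtain ⟨s, -, -, hs⟩ := hL.high q0 q1 h01 ξ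
      refine ⟨s, (hκ.monotone hs).trans ?_⟩
      rw [← hF.card s]
      exact Cardinal.mk_subtype_mono fun x hx => ⟨Set.mem_univ x, hx⟩)
  exact ⟨g.trans (OrderEmbedding.subtype _)⟩

theorem not_wf (hL : Line W L ht) (hκ1 : ∀ ξ, ℵ₀ ≤ κ ξ) (hF : Fib ht κ cl) :
    ¬ WellFoundedLT Φ := by
  intro hw
  obtain ⟨q0, q1, h01⟩ := hL.nt
  have hne : {x | q0 < cl x}.Nonempty := by
    obtain ⟨x, rfl⟩ := exists_cl hκ1 hF q1
    exact ⟨x, h01⟩
  have hmem := wellFounded_lt.min_mem _ hne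
  obtain ⟨s, hs0, hs1, -⟩ := hL.high _ _ hmem bt
  obtain ⟨y, rfl⟩ := exists_cl hκ1 hF s
  exact wellFounded_lt.not_lt_min {x | q0 < cl x} hs0 (lt_of_cl_lt hF.mono hs1)

/-- The square does not embed. -/
theorem no_square (hL : Line W L ht) (hκ1 : ∀ ξ, ℵ₀ ≤ κ ξ) (hκW : ∀ ξ, #W < κ ξ)
    (hF : Fib ht κ cl) (f : (Φ ×ₗ Φ) ↪o Φ) : False := by
  obtain ⟨q, -⟩ := hL.nt
  have := hF.wf q
  obtain ⟨w⟩ := wo_embed (α := W) (β := {x // cl x = q}) (by
    rw [hF.card q]
    exact hκW _)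
  have hf : ∀ v v' : W, ∀ x y : Φ, v < v' → f (toLex ((w v).1, x)) < f (toLex ((w v').1, y)) :=
    fun v v' x y h => f.strictMono (by
      rw [Prod.Lex.lt_iff]
      left
      exact w.strictMono h)
  have hf' : ∀ v : W, ∀ x y : Φ, x < y → f (toLex ((w v).1, x)) < f (toLex ((w v).1, y)) :=
    fun v x y h => f.strictMono (by
      rw [Prod.Lex.lt_iff]
      right
      exact ⟨rfl, h⟩)
  have hex : ∀ v : W, ∃ x y : Φ, cl (f (toLex ((w v).1, x))) < cl (f (toLex ((w v).1, y))) := by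
    intro v
    by_contra hc
    push Not at hc
    apply not_wf hL hκ1 hF
    obtain ⟨x0, -⟩ := exists_cl hκ1 hF q
    have hall : ∀ x, cl (f (toLex ((w v).1, x))) = cl (f (toLex ((w v).1, x0))) := fun x =>
      le_antisymm (hc x0 x) (hc x x0)
    have := hF.wf (cl (f (toLex ((w v).1, x0))))
    exact wf_of_strictMono (β := {x // cl x = cl (f (toLex ((w v).1, x0)))})
      (f := fun x => ⟨f (toLex ((w v).1, x)), hall x⟩) fun x y h => hf' v x y h
  choose x y hxy using hex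
  exact hL.noω W (fun v => cl (f (toLex ((w v).1, x v)))) fun v v' h =>
    (hxy v).trans_le (hF.mono (hf v v' (y v) (x v') h).le)

end

end Pool.Agent.W_MP_6cb7ce_lc_h1
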