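import Pool.Agent.W_MP_6cb7ce_lc_h1.Om

/-!
The coherent tree, its levels, restrictions and the lexicographic order.
-/

set_option linter.unusedSectionVars false

namespace Pool.Agent.W_MP_6cb7ce_lc_h1

/-- A coherent sequence of finite-to-one functions. -/
structure Coh (W : Type) [LinearOrder W] where
  e : W → W → ℕ
  fin : ∀ δ n, {ξ | ξ < δ ∧ e δ ξ ≤ n}.Finite
  coh : ∀ γ δ, γ ≤ δ → {ξ | ξ < γ ∧ e γ ξ ≠ e δ ξ}.Finite

/-- Functions from `W` to the rationals, ordered lexicographically. -/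
abbrev F (W : Type) : Type := Lex (W → ℚ)

section

variable {W : Type} [LinearOrder W]

/-- Restriction of a function to the initial segment below `γ` (extended by `0`). -/
def res (γ : W) (t : F W) : F W := toLex fun ξ => if ξ < γ then t ξ else 0

theorem res_lt {γ ξ : W} {t : F W} (h : ξ < γ) : res γ t ξ = t ξ := by
  change (if ξ < γ then t ξ else 0) = t ξ
  rw [if_pos h]

theorem res_ge {γ ξ : W} {t : F W} (h : γ ≤ ξ) : res γ t ξ = 0 := by
  change (if ξ < γ then t ξ else 0) = 0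
  rw [if_neg (not_lt.mpr h)]

theorem F_ext {t u : F W} (h : ∀ ξ, t ξ = u ξ) : t = u := funext h

theorem res_res {γ δ : W} (h : γ ≤ δ) (t : F W) : res γ (res δ t) = res γ t := by
  apply F_ext
  intro ξ
  rcases lt_or_ge ξ γ with h1 | h1
  · rw [res_lt h1, res_lt h1, res_lt (h1.trans_le h)]
  · rw [res_ge h1, res_ge h1]

theorem res_eq_iff {γ : W} {t u : F W} : res γ t = res γ u ↔ ∀ ξ, ξ < γ → t ξ = u ξ := by
  constructor
  · intro h ξ hξ
    have h1 : res γ t ξ = res γ u ξ := congrFun h ξ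
    rw [res_lt hξ, res_lt hξ] at h1
    exact h1
  · intro h
    apply F_ext
    intro ξ
    rcases lt_or_ge ξ γ with h1 | h1
    · rw [res_lt h1, res_lt h1, h ξ h1]
    · rw [res_ge h1, res_ge h1]

theorem res_eq_mono {γ δ : W} (h : γ ≤ δ) {t u : F W} (h1 : res δ t = res δ u) :
    res γ t = res γ u := by
  rw [← res_res h, h1, res_res h]

/-- The level `δ` of the big tree. -/
def T (c : Coh W) (δ : W) : Set (F W) :=
  {t | (∀ ξ, 0 ≤ t ξ) ∧ (∀ ξ, δ ≤ ξ → t ξ = 0) ∧ {ξ | ξ < δ ∧ t ξ ≠ (c.e δ ξ : ℚ) + 1}.Finite}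

/-- The level `δ` of the tree of positive functions. -/
def U (c : Coh W) (δ : W) : Set (F W) := {t | t ∈ T c δ ∧ ∀ ξ, ξ < δ → 0 < t ξ}

variable {c : Coh W}

theorem res_self {γ δ : W} {t : F W} (ht : t ∈ T c δ) (h : δ ≤ γ) : res γ t = t := by
  apply F_ext
  intro ξ
  rcases lt_or_ge ξ γ with h1 | h1
  · rw [res_lt h1]
  · rw [res_ge h1, ht.2.1 ξ (h.trans h1)]

theorem res_mem_T {γ δ : W} {t : F W} (ht : t ∈ T c δ) (h : γ ≤ δ) : res γ t ∈ T c γ := by
  refine ⟨fun ξ => ?_, fun ξ hξ => res_ge hξ, ?_⟩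
  · rcases lt_or_ge ξ γ with h1 | h1
    · rw [res_lt h1]
      exact ht.1 ξ
    · rw [res_ge h1]
  · refine Set.Finite.subset (ht.2.2.union (c.coh γ δ h)) ?_
    rintro ξ ⟨h1, h2⟩
    rw [res_lt h1] at h2
    by_cases h3 : c.e γ ξ = c.e δ ξ
    · left
      rw [h3] at h2
      exact ⟨h1.trans_le h, h2⟩
    · right
      exact ⟨h1, h3⟩

theorem res_mem_U {γ δ : W} {t : F W} (ht : t ∈ U c δ) (h : γ ≤ δ) : res γ t ∈ U c γ := by
  refine ⟨res_mem_T ht.1 h, fun ξ hξ => ?_⟩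
  rw [res_lt hξ]
  exact ht.2 ξ (hξ.trans_le h)

theorem T_diff_finite {γ δ : W} {t u : F W} (ht : t ∈ T c γ) (hu : u ∈ T c δ) :
    {ξ | ξ < γ ∧ ξ < δ ∧ t ξ ≠ u ξ}.Finite := by
  wlog h : γ ≤ δ generalizing γ δ t u
  · refine Set.Finite.subset (this hu ht (not_le.mp h).le) ?_
    rintro ξ ⟨h1, h2, h3⟩
    exact ⟨h2, h1, Ne.symm h3⟩
  refine Set.Finite.subset ((ht.2.2.union hu.2.2).union (c.coh γ δ h)) ?_
  rintro ξ ⟨h1, h2, h3⟩
  by_cases h4 : c.e γ ξ = c.e δ ξ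
  · left
    by_cases h5 : t ξ = (c.e γ ξ : ℚ) + 1
    · right
      refine ⟨h2, fun h6 => h3 ?_⟩
      rw [h5, h6, h4]
    · left
      exact ⟨h1, h5⟩
  · right
    exact ⟨h1, h4⟩

/-- Levels are countable. -/
theorem T_countable (c : Coh W) {δ : W} (hδ : (Set.Iio δ).Countable) : (T c δ).Countable := by
  classical
  have : Countable (Set.Iio δ) := hδ.to_subtype
  let Ψ : (Set.Iio δ →₀ ℚ) → F W := fun f =>
    toLex fun ξ => if h : ξ < δ then (c.e δ ξ : ℚ) + 1 + f ⟨ξ, h⟩ else 0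
  refine Set.Countable.mono ?_ (Set.countable_range Ψ)
  intro t ht
  have hfin : {x : Set.Iio δ | t x.1 - ((c.e δ x.1 : ℚ) + 1) ≠ 0}.Finite := by
    refine Set.Finite.of_finite_image (f := Subtype.val) ?_ Subtype.val_injective.injOn
    refine Set.Finite.subset ht.2.2 ?_
    rintro _ ⟨x, hx, rfl⟩
    exact ⟨x.2, fun h => hx (sub_eq_zero.mpr h)⟩
  refine ⟨Finsupp.ofSupportFinite (fun x : Set.Iio δ => t x.1 - ((c.e δ x.1 : ℚ) + 1)) ?_, ?_⟩
  · exact hfin
  · apply F_ext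
    intro ξ
    change (if h : ξ < δ then (c.e δ ξ : ℚ) + 1 +
      (Finsupp.ofSupportFinite (fun x : Set.Iio δ => t x.1 - ((c.e δ x.1 : ℚ) + 1)) hfin)
        ⟨ξ, h⟩ else 0) = t ξ
    split_ifs with h
    · change (c.e δ ξ : ℚ) + 1 + (t ξ - ((c.e δ ξ : ℚ) + 1)) = t ξ
      ring
    · exact (ht.2.1 ξ (not_lt.mp h)).symm

end

section

variable {W : Type} [LinearOrder W] [Om W] {c : Coh W}

theorem T_cnt (c : Coh W) (δ : W) : (T c δ).Countable := T_countable c (Om.cnt δ)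

theorem F_lt_iff {t u : F W} : t < u ↔ ∃ i, (∀ j, j < i → t j = u j) ∧ t i < u i := Iff.rfl

theorem res_mono {γ : W} {t u : F W} (h : t ≤ u) : res γ t ≤ res γ u := by
  rcases h.eq_or_lt with rfl | h
  · exact le_rfl
  obtain ⟨i, h1, h2⟩ := F_lt_iff.mp h
  rcases lt_or_ge i γ with h3 | h3
  · refine (F_lt_iff.mpr ⟨i, fun j hj => ?_, ?_⟩).le
    · rw [res_lt (hj.trans h3), res_lt (hj.trans h3), h1 j hj]
    · rw [res_lt h3, res_lt h3]
      exact h2
  · refine le_of_eq (res_eq_iff.mpr fun ξ hξ => h1 ξ (hξ.trans_le h3))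

theorem lt_of_res_lt {γ : W} {t u : F W} (h : res γ t < res γ u) : t < u := by
  by_contra hc
  exact absurd (res_mono (γ := γ) (not_lt.mp hc)) (not_le.mpr h)

theorem res_lt_mono {γ δ : W} (hle : γ ≤ δ) {t u : F W} (h : res γ t < res γ u) :
    res δ t < res δ u := by
  apply lt_of_res_lt (γ := γ)
  rw [res_res hle, res_res hle]
  exact h

/-- The first difference. -/
theorem exists_first_diff {t u : F W} (h : t ≠ u) :
    ∃ i, (∀ j, j < i → t j = u j) ∧ t i ≠ u i := by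
  have hne : {i | t i ≠ u i}.Nonempty := by
    by_contra hc
    rw [Set.not_nonempty_iff_eq_empty, Set.eq_empty_iff_forall_notMem] at hc
    exact h (F_ext fun ξ => not_not.mp (hc ξ))
  refine ⟨wellFounded_lt.min _ hne, fun j hj => ?_, wellFounded_lt.min_mem _ hne⟩
  by_contra hc
  exact wellFounded_lt.not_lt_min {i | t i ≠ u i} hc hj

/-- There is no uncountable branch. -/
theorem no_branch (b : F W) (hb : ∀ δ, res δ b ∈ T c δ) : False := by
  have h1 : ∃ n : ℕ, ¬ {ξ : W | b ξ ≤ n}.Countable := by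
    by_contra hc
    push Not at hc
    apply Om.unc (W := W)
    refine Set.Countable.mono ?_ (Set.countable_iUnion hc)
    intro ξ _
    obtain ⟨n, hn⟩ := exists_nat_ge (b ξ)
    simp only [Set.mem_iUnion]
    exact ⟨n, hn⟩
  obtain ⟨n, hn⟩ := h1
  have h2 : {ξ : W | b ξ ≤ n}.Infinite := fun hf => hn hf.countable
  obtain ⟨f, hf⟩ : ∃ f : ℕ → W, Function.Injective f ∧ ∀ k, b (f k) ≤ n := by
    have := h2.natEmbedding
    refine ⟨fun k => (h2.natEmbedding _ k).1, fun a b hab => ?_, fun k => (h2.natEmbedding _ k).2⟩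
    exact (h2.natEmbedding _).injective (Subtype.ext hab)
  obtain ⟨γ, hγ⟩ := exists_ub_range f
  have h3 : (Set.range f).Infinite := Set.infinite_range_of_injective hf.1
  apply h3
  refine Set.Finite.subset ((hb γ).2.2.union (c.fin γ n)) ?_
  rintro _ ⟨k, rfl⟩
  by_cases h4 : res γ b (f k) = (c.e γ (f k) : ℚ) + 1
  · right
    refine ⟨hγ k, ?_⟩
    rw [res_lt (hγ k)] at h4
    have h5 := hf.2 k
    rw [h4] at h5
    have h6 : ((c.e γ (f k) : ℕ) : ℚ) ≤ n := by linarith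
    exact_mod_cast h6
  · left
    exact ⟨hγ k, h4⟩

theorem no_branch' (a : W → F W) (ha : ∀ δ, a δ ∈ T c δ)
    (hcoh : ∀ γ δ, γ ≤ δ → res γ (a δ) = a γ) : False := by
  refine no_branch (c := c) (toLex fun ξ => a (sc ξ) ξ) fun δ => ?_
  have h : res δ (toLex fun ξ => a (sc ξ) ξ) = a δ := by
    apply F_ext
    intro ξ
    rcases lt_or_ge ξ δ with h1 | h1
    · rw [res_lt h1]
      change a (sc ξ) ξ = a δ ξ
      rw [← hcoh (sc ξ) δ (sc_le h1), res_lt (lt_sc ξ)]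
    · rw [res_ge h1, (ha δ).2.1 ξ h1]
  rw [h]
  exact ha δ

/-- A monotone function with countable range on a well order of type `ω₁` is eventually
constant. -/
theorem eventually_const {V : Type} [LinearOrder V] [Om V] {α : Type*} [PartialOrder α]
    {S : Set α} (hS : S.Countable) (f : V → α) (hf : ∀ a, f a ∈ S) (hm : Monotone f) :
    ∃ y ∈ S, ∃ a, ∀ b, a ≤ b → f b = y := by
  obtain ⟨y, hy, h⟩ := pigeon hS f hf
  obtain ⟨a, -, ha⟩ := h bt
  refine ⟨y, hy, a, fun b hab => ?_⟩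
  obtain ⟨d, hbd, hd⟩ := h b
  exact le_antisymm (hd ▸ hm hbd) (ha ▸ hm hab)

theorem U_height_unique {γ δ : W} {t : F W} (h1 : t ∈ U c γ) (h2 : t ∈ U c δ) : γ = δ := by
  rcases lt_trichotomy γ δ with h | h | h
  · have h3 := h2.2 γ h
    rw [h1.1.2.1 γ le_rfl] at h3
    exact absurd h3 (lt_irrefl _)
  · exact h
  · have h3 := h1.2 δ h
    rw [h2.1.2.1 δ le_rfl] at h3
    exact absurd h3 (lt_irrefl _)

/-- The lexicographically ordered tree `L` does not contain a copy of `ω₁`. -/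
theorem no_omega1 {V : Type} [LinearOrder V] [Om V] (f : V → F W) (hf : StrictMono f)
    (hL : ∀ a, ∃ δ, f a ∈ U c δ) : False := by
  choose h hh using hL
  have hS : ∀ γ : W, (⋃ δ ∈ Set.Iic γ, T c δ).Countable := fun γ =>
    (Iic_countable γ).biUnion fun δ _ => T_cnt c δ
  have hex : ∀ γ : W, ∃ y, ∃ a, ∀ b, a ≤ b → res γ (f b) = y := fun γ => by
    have hmem : ∀ a, res γ (f a) ∈ ⋃ δ ∈ Set.Iic γ, T c δ := fun a => by
      simp only [Set.mem_iUnion]
      rcases le_total γ (h a) with h1 | h1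
      · exact ⟨γ, Set.mem_Iic.mpr le_rfl, res_mem_T (hh a).1 h1⟩
      · refine ⟨h a, h1, ?_⟩
        rw [res_self (hh a).1 h1]
        exact (hh a).1
    obtain ⟨y, -, a, ha⟩ := eventually_const (hS γ) (fun b => res γ (f b)) hmem
      (fun a b hab => res_mono (hf.monotone hab))
    exact ⟨y, a, ha⟩
  choose y a ha using hex
  have hmem : ∀ γ, y γ ∈ T c γ := by
    intro γ
    by_contra hc
    have h1 : ∀ b, a γ ≤ b → h b ≤ γ := fun b hb => by
      by_contra h2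
      apply hc
      rw [← ha γ b hb]
      exact res_mem_T (hh b).1 (not_le.mp h2).le
    obtain ⟨b, hb⟩ := exists_gt (a γ)
    have h2 : f (a γ) = f b := by
      rw [← res_self (hh (a γ)).1 (h1 _ le_rfl), ← res_self (hh b).1 (h1 b hb.le),
        ha γ _ le_rfl, ha γ b hb.le]
    exact absurd (hf hb) (by rw [h2]; exact lt_irrefl _)
  refine no_branch' y hmem fun γ δ hγδ => ?_
  obtain ⟨h1, h2⟩ : a γ ≤ max (a γ) (a δ) ∧ a δ ≤ max (a γ) (a δ) :=
    ⟨le_max_left _ _, le_max_right _ _⟩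
  rw [← ha γ _ h1, ← ha δ _ h2, res_res hγδ]

/-- Gluing with the canonical function. -/
def glue (c : Coh W) (η Δ : W) (t : F W) : F W :=
  toLex fun ξ => if ξ < Δ then t ξ else if ξ < η then (c.e η ξ : ℚ) + 1 else 0

theorem glue_lt {η Δ ξ : W} {t : F W} (h : ξ < Δ) : glue c η Δ t ξ = t ξ := by
  change (if ξ < Δ then t ξ else if ξ < η then (c.e η ξ : ℚ) + 1 else 0) = t ξ
  rw [if_pos h]

theorem glue_mid {η Δ ξ : W} {t : F W} (h : Δ ≤ ξ) (h' : ξ < η) :
    glue c η Δ t ξ = (c.e η ξ : ℚ) + 1 := by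
  change (if ξ < Δ then t ξ else if ξ < η then (c.e η ξ : ℚ) + 1 else 0) = _
  rw [if_neg (not_lt.mpr h), if_pos h']

theorem glue_ge {η Δ ξ : W} {t : F W} (h : Δ ≤ ξ) (h' : η ≤ ξ) : glue c η Δ t ξ = 0 := by
  change (if ξ < Δ then t ξ else if ξ < η then (c.e η ξ : ℚ) + 1 else 0) = _
  rw [if_neg (not_lt.mpr h), if_neg (not_lt.mpr h')]

theorem glue_mem_T {η Δ δ : W} {t : F W} (ht : t ∈ T c δ) (h1 : Δ ≤ δ) (h2 : Δ ≤ η) :
    glue c η Δ t ∈ T c η := by
  refine ⟨fun ξ => ?_, fun ξ hξ => glue_ge (h2.trans hξ) hξ, ?_⟩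
  · rcases lt_or_ge ξ Δ with h | h
    · rw [glue_lt h]
      exact ht.1 ξ
    · rcases lt_or_ge ξ η with h' | h'
      · rw [glue_mid h h']
        positivity
      · rw [glue_ge h h']
  · have h3 := res_mem_T ht h1
    refine Set.Finite.subset (h3.2.2.union (c.coh Δ η h2)) ?_
    rintro ξ ⟨h4, h5⟩
    have h6 : ξ < Δ := by
      by_contra hc
      exact h5 (glue_mid (not_lt.mp hc) h4)
    rw [glue_lt h6] at h5
    by_cases h7 : c.e Δ ξ = c.e η ξ
    · left
      refine ⟨h6, ?_⟩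
      rw [res_lt h6, h7]
      exact h5
    · right
      exact ⟨h6, h7⟩

/-- Changing one value. -/
noncomputable def upd (t : F W) (i : W) (r : ℚ) : F W :=
  toLex fun ξ => if ξ = i then r else t ξ

theorem upd_self {t : F W} {i : W} {r : ℚ} : upd t i r i = r := by
  change (if i = i then r else t i) = r
  rw [if_pos rfl]

theorem upd_ne {t : F W} {i ξ : W} {r : ℚ} (h : ξ ≠ i) : upd t i r ξ = t ξ := by
  change (if ξ = i then r else t ξ) = t ξ
  rw [if_neg h]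

theorem upd_mem_T {δ i : W} {t : F W} {r : ℚ} (ht : t ∈ T c δ) (hi : i < δ) (hr : 0 ≤ r) :
    upd t i r ∈ T c δ := by
  refine ⟨fun ξ => ?_, fun ξ hξ => ?_, ?_⟩
  · by_cases h : ξ = i
    · rw [h, upd_self]
      exact hr
    · rw [upd_ne h]
      exact ht.1 ξ
  · rw [upd_ne (hi.trans_le hξ).ne']
    exact ht.2.1 ξ hξ
  · refine Set.Finite.subset (ht.2.2.union (Set.finite_singleton i)) ?_
    rintro ξ ⟨h1, h2⟩
    by_cases h : ξ = i
    · right
      exact h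
    · left
      rw [upd_ne h] at h2
      exact ⟨h1, h2⟩

/-- Between two elements of `L` there are elements of arbitrarily large height. -/
theorem exists_between_high {γ δ : W} {q q' : F W} (hq : q ∈ U c γ) (hq' : q' ∈ U c δ)
    (hlt : q < q') (η : W) : ∃ θ, η ≤ θ ∧ ∃ s ∈ U c θ, q < s ∧ s < q' := by
  obtain ⟨Δ, h1, h2⟩ := F_lt_iff.mp hlt
  obtain ⟨r, hr1, hr2⟩ := exists_between h2
  have h0 : 0 ≤ q Δ := hq.1.1 Δ
  have hΔδ : Δ < δ := by
    by_contra hc
    rw [hq'.1.2.1 Δ (not_lt.mp hc)] at h2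
    exact absurd h2 (not_lt.mpr h0)
  have hθ : Δ < max η (sc Δ) := (lt_sc Δ).trans_le (le_max_right _ _)
  refine ⟨max η (sc Δ), le_max_left _ _, upd (glue c (max η (sc Δ)) Δ q') Δ r, ⟨?_, ?_⟩, ?_, ?_⟩
  · exact upd_mem_T (glue_mem_T hq'.1 hΔδ.le hθ.le) hθ (h0.trans hr1.le)
  · intro ξ hξ
    by_cases h : ξ = Δ
    · rw [h, upd_self]
      exact h0.trans_lt hr1
    · rw [upd_ne h]
      rcases lt_or_ge ξ Δ with h3 | h3
      · rw [glue_lt h3]
        exact hq'.2 ξ (h3.trans hΔδ)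
      · rw [glue_mid h3 hξ]
        positivity
  · refine F_lt_iff.mpr ⟨Δ, fun j hj => ?_, ?_⟩
    · rw [upd_ne hj.ne, glue_lt hj, h1 j hj]
    · rw [upd_self]
      exact hr1
  · refine F_lt_iff.mpr ⟨Δ, fun j hj => ?_, ?_⟩
    · rw [upd_ne hj.ne, glue_lt hj]
    · rw [upd_self]
      exact hr2

/-- Canonical elements of `L`. -/
theorem glue_canon (δ : W) : glue c δ bt 0 ∈ U c δ := by
  refine ⟨⟨fun ξ => ?_, fun ξ hξ => glue_ge (bt_le ξ) hξ, ?_⟩, fun ξ hξ => ?_⟩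
  · rcases lt_or_ge ξ δ with h | h
    · rw [glue_mid (bt_le ξ) h]
      positivity
    · rw [glue_ge (bt_le ξ) h]
  · refine Set.Finite.subset Set.finite_empty ?_
    rintro ξ ⟨h1, h2⟩
    exact absurd (glue_mid (bt_le ξ) h1) h2
  · rw [glue_mid (bt_le ξ) hξ]
    positivity

end

end Pool.Agent.W_MP_6cb7ce_lc_h1
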